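import Mathlib
import Pool.Agent.Helper303_RF.Alg

/-!
# The algorithm, for residue fields of degree `k`

As in `Helper303_RF.Alg`, with the field with `M + 1` elements, `M + 1` a power of `p`, in place of
the field with `p` elements.  The value of the polynomial with coefficient vector `u` at a root is a
multiple `D r` of the number `r` to be found.
-/

set_option autoImplicit false

namespace Pool.Agent.Helper303_RG

open Pool.Agent.NPC
open Pool.Agent.Helper303_RF
open Pool.Agent.H595R2.PR (md pw strip)

/-- `1 - y ^ M`, the indicator function of the zeros of `y` -/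
def ind (c : List ℤ) (p M : ℕ) (y : List ℕ) : List ℕ := compl c p (vpow c p y M)

/-- the indicator function of `w ^ (q ^ j) = ζ ^ d` -/
def bit (c : List ℤ) (p M q j : ℕ) (ζ w : List ℕ) (d : ℕ) : List ℕ :=
  ind c p M (vadd c.length p (itq c p q j w) (vsmul c.length p (p - 1) (vpow c p ζ d)))

/-- the next remainder: `w * us ^ (- d)` where the digit is `d` -/
def stepW (c : List ℤ) (p M q j : ℕ) (ζ us w : List ℕ) : List ℕ :=
  (List.range q).foldl (fun acc d => vadd c.length p acc
    (vmul c p (bit c p M q j ζ w d) (vmul c p w (vpow c p us (M - d))))) (vzero c.length p)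

/-- the remainder after `s` digits -/
def rmd (c : List ℤ) (p M q a : ℕ) (ζ u w : List ℕ) (s : ℕ) : List ℕ :=
  (List.range s).foldl (fun w i => stepW c p M q (a - 1 - i) ζ (itq c p q (min i a) u) w) w

/-- all indicator functions of the digits of the logarithm of `w` to the base `u`, for the exponent
`q ^ a` -/
def bits1 (c : List ℤ) (p M q a : ℕ) (u w : List ℕ) : List (List ℕ) :=
  (List.range a).flatMap fun s => (List.range q).map fun d =>
    bit c p M q (a - 1 - s) (itq c p q (a - 1) u) (rmd c p M q a (itq c p q (a - 1) u) u w (min s a)) d

/-- the tests for two elements -/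
def tests2 (c : List ℤ) (p M n L : ℕ) (α β : List ℕ) : List (List ℕ) :=
  (List.range (L + 1)).flatMap fun q => (List.range (n + 1)).flatMap fun a =>
    bits1 c p M (min q L) (min a n) (vpow c p α (strip (min q L) n M))
      (vpow c p β (strip (min q L) n M))

/-- all tests -/
def tests (c : List ℤ) (p M n L H : ℕ) : List (List ℕ) :=
  (cube c.length (smallC p H)).flatMap fun α => (cube c.length (smallC p H)).flatMap fun β =>
    tests2 c p M n L α β

/-- the indicator function of the roots in the field with `M + 1` elements -/
def spl (c : List ℤ) (p M : ℕ) : List ℕ :=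
  compl c p (bigpow c p c.length (vadd c.length p (vpow c p (xv c p) (M + 1))
    (vsmul c.length p (p - 1) (xv c p))))

/-- the tests and their complements -/
def lits (c : List ℤ) (p M n L H : ℕ) : List (List ℕ) :=
  spl c p M :: (tests c p M n L H ++ (tests c p M n L H).map (compl c p))

/-- the vector of the polynomial with coefficient list `u` -/
def uvec (u : List ℤ) (n p : ℕ) : List ℕ := mk n p fun k => rep (-(-(u.getD k 0))) p

/-- the number `r` for which the value of `u` is `D r` where the function `t` is concentrated -/
def extr (c u : List ℤ) (D : ℤ) (p : ℕ) (t : List ℕ) : List ℕ :=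
  (List.range c.length).map fun i =>
    md p ((vmul c p (uvec u c.length p) t).getD i 0 *
      (pw p (t.getD i 0) (p - 2) * pw p (rep D p) (p - 2)))

/-- the list of possible roots -/
def rlist (c u : List ℤ) (D : ℤ) (p M n L H : ℕ) : List ℕ :=
  (prods c p (lits c p M n L H) c.length).flatMap (extr c u D p)

end Pool.Agent.Helper303_RG
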