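import Mathlib
import Pool.Agent.Helper303_RF.AlgPoly
import Pool.Agent.Helper303_RG.Alg

/-!
# The algorithm takes polynomial time
-/

set_option autoImplicit false

namespace Pool.Agent.NPC.H303G

open Pool.Agent.NPC Pool.Agent.NPC.H595POL Pool.Agent.NPC.H303
open Pool.Agent.Helper303_RF (rep mk vadd vsmul xmul vone vzero vmul vpow compl itq smallC cube xv
  bigpow prods)
open Pool.Agent.Helper303_RG
open Pool.Agent.H595R2.PR (md pw strip)

variable {α : Type} [TEnc α]

theorem poly_ind (c : List ℤ) {p M : α → ℕ} (hp : Poly p) (hM : Poly M) {y : α → List ℕ}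
    (hy : Poly y) : Poly (fun x => ind c (p x) (M x) (y x)) :=
  poly_compl c hp (poly_vpow c hp hM hy)

theorem poly_bit (c : List ℤ) {p M q j d : α → ℕ} (hp : Poly p) (hM : Poly M) (hq : Poly q)
    (hj : UPoly j) (hd : Poly d) {ζ w : α → List ℕ} (hζ : Poly ζ) (hw : Poly w) :
    Poly (fun a => bit c (p a) (M a) (q a) (j a) (ζ a) (w a) (d a)) :=
  poly_ind c hp hM (poly_vadd _ hp (poly_itq c hp hq hj hw) (poly_vsmul _ hp
    (Poly.sub hp (Poly.const 1)) (poly_vpow c hp hd hζ)))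

theorem poly_stepW (c : List ℤ) {p M q j : α → ℕ} (hp : Poly p) (hM : Poly M) (hq : UPoly q)
    (hj : UPoly j) {ζ us w : α → List ℕ} (hζ : Poly ζ) (hus : Poly us) (hw : Poly w) :
    Poly (fun a => stepW c (p a) (M a) (q a) (j a) (ζ a) (us a) (w a)) := by
  refine foldlV c.length (l := fun a => List.range (q a))
    (s := fun a => vzero c.length (p a)) (F := fun a acc d => vadd c.length (p a) acc
      (vmul c (p a) (bit c (p a) (M a) (q a) (j a) (ζ a) (w a) d) (vmul c (p a) (w a)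
        (vpow c (p a) (us a) (M a - d))))) hq.range
    (poly_mk _ hp (g := fun _ _ => 0) (Poly.const 0)) ?_ hp (fun _ _ _ => ⟨_, rfl⟩)
  have hp' : Poly (fun x : α × List ℕ × ℕ => p x.1) := hp.comp (Poly.fst Poly.id)
  have hM' : Poly (fun x : α × List ℕ × ℕ => M x.1) := hM.comp (Poly.fst Poly.id)
  have hw' : Poly (fun x : α × List ℕ × ℕ => w x.1) := hw.comp (Poly.fst Poly.id)
  have hd : Poly (fun x : α × List ℕ × ℕ => x.2.2) := Poly.snd (Poly.snd Poly.id)
  refine poly_vadd _ hp' (Poly.fst (Poly.snd Poly.id)) (poly_vmul c hp' ?_ (poly_vmul c hp' hw'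
    (poly_vpow c hp' (Poly.sub hM' hd) (hus.comp (Poly.fst Poly.id)))))
  exact poly_bit c hp' hM' (hq.toPoly.comp (Poly.fst Poly.id)) (hj.comp (Poly.fst Poly.id)) hd
    (hζ.comp (Poly.fst Poly.id)) hw'

theorem stepW_mk (c : List ℤ) (p M q j : ℕ) (ζ us w : List ℕ) :
    ∃ g, stepW c p M q j ζ us w = mk c.length p g := by
  unfold stepW
  cases q with
  | zero => exact ⟨_, rfl⟩
  | succ q =>
    rw [List.range_succ, List.foldl_append]
    exact ⟨_, rfl⟩

theorem poly_rmd (c : List ℤ) {p M q a s : α → ℕ} (hp : Poly p) (hM : Poly M) (hq : UPoly q)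
    (ha : UPoly a) (hs : UPoly s) {ζ u w : α → List ℕ} (hζ : Poly ζ) (hu : Poly u) (hw : Poly w) :
    Poly (fun x => rmd c (p x) (M x) (q x) (a x) (ζ x) (u x) (w x) (s x)) := by
  refine foldlV c.length (l := fun x => List.range (s x)) (s := w)
    (F := fun x w i => stepW c (p x) (M x) (q x) (a x - 1 - i) (ζ x)
      (itq c (p x) (q x) (min i (a x)) (u x)) w) hs.range hw ?_ hp
    (fun _ _ _ => stepW_mk _ _ _ _ _ _ _ _)
  have hp' : Poly (fun x : α × List ℕ × ℕ => p x.1) := hp.comp (Poly.fst Poly.id)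
  have hM' : Poly (fun x : α × List ℕ × ℕ => M x.1) := hM.comp (Poly.fst Poly.id)
  have hq' : UPoly (fun x : α × List ℕ × ℕ => q x.1) := hq.comp (Poly.fst Poly.id)
  have ha' : UPoly (fun x : α × List ℕ × ℕ => a x.1) := ha.comp (Poly.fst Poly.id)
  have hi : Poly (fun x : α × List ℕ × ℕ => x.2.2) := Poly.snd (Poly.snd Poly.id)
  refine poly_stepW c hp' hM' hq' (UPoly.of_le (Poly.sub (Poly.sub ha'.toPoly (Poly.const 1)) hi) ha'
    fun x => by omega) (hζ.comp (Poly.fst Poly.id)) ?_ (Poly.fst (Poly.snd Poly.id))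
  exact poly_itq c hp' hq'.toPoly (UPoly.of_le (Poly.min hi ha'.toPoly) ha'
    fun x => min_le_right _ _) (hu.comp (Poly.fst Poly.id))

theorem poly_bits1 (c : List ℤ) {p M q a : α → ℕ} (hp : Poly p) (hM : Poly M) (hq : UPoly q)
    (ha : UPoly a) {u w : α → List ℕ} (hu : Poly u) (hw : Poly w) :
    Poly (fun x => bits1 c (p x) (M x) (q x) (a x) (u x) (w x)) := by
  refine Poly.flatMap (l := fun x => List.range (a x)) (F := fun x s =>
    (List.range (q x)).map fun d => bit c (p x) (M x) (q x) (a x - 1 - s)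
      (itq c (p x) (q x) (a x - 1) (u x)) (rmd c (p x) (M x) (q x) (a x)
        (itq c (p x) (q x) (a x - 1) (u x)) (u x) (w x) (min s (a x))) d) ha.range ?_
  refine Poly.map (l := fun y : α × ℕ => List.range (q y.1)) (F := fun y d =>
    bit c (p y.1) (M y.1) (q y.1) (a y.1 - 1 - y.2)
      (itq c (p y.1) (q y.1) (a y.1 - 1) (u y.1)) (rmd c (p y.1) (M y.1) (q y.1) (a y.1)
        (itq c (p y.1) (q y.1) (a y.1 - 1) (u y.1)) (u y.1) (w y.1) (min y.2 (a y.1))) d)
    (hq.comp (Poly.fst Poly.id)).range ?_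
  have hp' : Poly (fun x : (α × ℕ) × ℕ => p x.1.1) := hp.comp (Poly.fst (Poly.fst Poly.id))
  have hM' : Poly (fun x : (α × ℕ) × ℕ => M x.1.1) := hM.comp (Poly.fst (Poly.fst Poly.id))
  have hq' : UPoly (fun x : (α × ℕ) × ℕ => q x.1.1) := hq.comp (Poly.fst (Poly.fst Poly.id))
  have ha' : UPoly (fun x : (α × ℕ) × ℕ => a x.1.1) := ha.comp (Poly.fst (Poly.fst Poly.id))
  have hu' : Poly (fun x : (α × ℕ) × ℕ => u x.1.1) := hu.comp (Poly.fst (Poly.fst Poly.id))
  have hw' : Poly (fun x : (α × ℕ) × ℕ => w x.1.1) := hw.comp (Poly.fst (Poly.fst Poly.id))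
  have hs : Poly (fun x : (α × ℕ) × ℕ => x.1.2) := Poly.snd (Poly.fst Poly.id)
  have hd : Poly (fun x : (α × ℕ) × ℕ => x.2) := Poly.snd Poly.id
  have ha1 : UPoly (fun x : (α × ℕ) × ℕ => a x.1.1 - 1) :=
    UPoly.of_le (Poly.sub ha'.toPoly (Poly.const 1)) ha' fun x => Nat.sub_le _ _
  have hζ := poly_itq c hp' hq'.toPoly ha1 hu'
  refine poly_bit c hp' hM' hq'.toPoly (UPoly.of_le (Poly.sub (Poly.sub ha'.toPoly (Poly.const 1)) hs)
    ha' fun x => by omega) hd hζ ?_
  exact poly_rmd c hp' hM' hq' ha' (UPoly.of_le (Poly.min hs ha'.toPoly) ha'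
    fun x => min_le_right _ _) hζ hu' hw'

theorem poly_tests2 (c : List ℤ) {p M n L : α → ℕ} (hp : Poly p) (hM : Poly M) (hn : UPoly n)
    (hL : UPoly L) {u w : α → List ℕ} (hu : Poly u) (hw : Poly w) :
    Poly (fun x => tests2 c (p x) (M x) (n x) (L x) (u x) (w x)) := by
  refine Poly.flatMap (l := fun x => List.range (L x + 1)) (F := fun x q =>
    (List.range (n x + 1)).flatMap fun a => bits1 c (p x) (M x) (min q (L x)) (min a (n x))
      (vpow c (p x) (u x) (strip (min q (L x)) (n x) (M x)))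
      (vpow c (p x) (w x) (strip (min q (L x)) (n x) (M x))))
    (UPoly.add hL (UPoly.const 1)).range ?_
  refine Poly.flatMap (l := fun y : α × ℕ => List.range (n y.1 + 1)) (F := fun y a =>
    bits1 c (p y.1) (M y.1) (min y.2 (L y.1)) (min a (n y.1))
      (vpow c (p y.1) (u y.1) (strip (min y.2 (L y.1)) (n y.1) (M y.1)))
      (vpow c (p y.1) (w y.1) (strip (min y.2 (L y.1)) (n y.1) (M y.1))))
    (UPoly.add (hn.comp (Poly.fst Poly.id)) (UPoly.const 1)).range ?_
  have hp' : Poly (fun x : (α × ℕ) × ℕ => p x.1.1) := hp.comp (Poly.fst (Poly.fst Poly.id))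
  have hM' : Poly (fun x : (α × ℕ) × ℕ => M x.1.1) := hM.comp (Poly.fst (Poly.fst Poly.id))
  have hn' : UPoly (fun x : (α × ℕ) × ℕ => n x.1.1) := hn.comp (Poly.fst (Poly.fst Poly.id))
  have hL' : UPoly (fun x : (α × ℕ) × ℕ => L x.1.1) := hL.comp (Poly.fst (Poly.fst Poly.id))
  have hu' : Poly (fun x : (α × ℕ) × ℕ => u x.1.1) := hu.comp (Poly.fst (Poly.fst Poly.id))
  have hw' : Poly (fun x : (α × ℕ) × ℕ => w x.1.1) := hw.comp (Poly.fst (Poly.fst Poly.id))
  have hq : UPoly (fun x : (α × ℕ) × ℕ => min x.1.2 (L x.1.1)) :=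
    UPoly.of_le (Poly.min (Poly.snd (Poly.fst Poly.id)) hL'.toPoly) hL' fun x => min_le_right _ _
  have ha : UPoly (fun x : (α × ℕ) × ℕ => min x.2 (n x.1.1)) :=
    UPoly.of_le (Poly.min (Poly.snd Poly.id) hn'.toPoly) hn' fun x => min_le_right _ _
  have he := poly_strip hq.toPoly hn' hM'
  exact poly_bits1 c hp' hM' hq ha (poly_vpow c hp' he hu') (poly_vpow c hp' he hw')

theorem poly_tests (c : List ℤ) {p M n L H : α → ℕ} (hp : Poly p) (hM : Poly M) (hn : UPoly n)
    (hL : UPoly L) (hH : UPoly H) : Poly (fun x => tests c (p x) (M x) (n x) (L x) (H x)) := by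
  have hS : Poly (fun x => cube c.length (smallC (p x) (H x))) := poly_cube _ (poly_smallC hp hH)
  refine Poly.flatMap (l := fun x => cube c.length (smallC (p x) (H x))) (F := fun x u =>
    (cube c.length (smallC (p x) (H x))).flatMap fun w => tests2 c (p x) (M x) (n x) (L x) u w) hS ?_
  refine Poly.flatMap (l := fun y : α × List ℕ => cube c.length (smallC (p y.1) (H y.1)))
    (F := fun y w => tests2 c (p y.1) (M y.1) (n y.1) (L y.1) y.2 w) (hS.comp (Poly.fst Poly.id)) ?_
  exact poly_tests2 c (hp.comp (Poly.fst (Poly.fst Poly.id)))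
    (hM.comp (Poly.fst (Poly.fst Poly.id)))
    (hn.comp (Poly.fst (Poly.fst Poly.id))) (hL.comp (Poly.fst (Poly.fst Poly.id)))
    (Poly.snd (Poly.fst Poly.id)) (Poly.snd Poly.id)

theorem poly_spl (c : List ℤ) {p M : α → ℕ} (hp : Poly p) (hM : Poly M) :
    Poly (fun x => spl c (p x) (M x)) :=
  poly_compl c hp (poly_bigpow c hp _ (poly_vadd _ hp (poly_vpow c hp (Poly.succ hM)
    (poly_xv c hp)) (poly_vsmul _ hp (Poly.sub hp (Poly.const 1)) (poly_xv c hp))))

theorem poly_lits (c : List ℤ) {p M n L H : α → ℕ} (hp : Poly p) (hM : Poly M) (hn : UPoly n)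
    (hL : UPoly L) (hH : UPoly H) : Poly (fun x => lits c (p x) (M x) (n x) (L x) (H x)) := by
  have h := poly_tests c hp hM hn hL hH
  refine Poly.cons (poly_spl c hp hM) (Poly.append h (Poly.map
    (l := fun x => tests c (p x) (M x) (n x) (L x) (H x)) (F := fun x y => compl c (p x) y) h
    (poly_compl c (hp.comp (Poly.fst Poly.id)) (Poly.snd Poly.id))))

theorem poly_uvec (u : List ℤ) (n : ℕ) {p : α → ℕ} (hp : Poly p) :
    Poly (fun x => uvec u n (p x)) := by
  refine poly_mk n hp (g := fun x k => rep (-(-(u.getD k 0))) (p x)) ?_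
  have h := poly_repc (u.map fun z => -z) (hp.comp (Poly.fst Poly.id)) (k := fun x : α × ℕ => x.2)
    (Poly.snd Poly.id)
  refine h.congr fun x => ?_
  congr 2
  by_cases hk : x.2 < u.length
  · simp [List.getD_eq_getElem?_getD, List.getElem?_map, List.getElem?_eq_getElem hk]
  · rw [List.getD_eq_default _ _ (by rw [List.length_map]; omega),
      List.getD_eq_default _ _ (by omega)]
    simp

theorem poly_extr (c u : List ℤ) (D : ℤ) {p : α → ℕ} (hp : Poly p) {t : α → List ℕ}
    (ht : Poly t) : Poly (fun x => extr c u D (p x) (t x)) := by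
  refine Poly.map (l := fun _ => List.range c.length) (F := fun x i =>
    md (p x) ((vmul c (p x) (uvec u c.length (p x)) (t x)).getD i 0 *
      (pw (p x) ((t x).getD i 0) (p x - 2) * pw (p x) (rep D (p x)) (p x - 2))))
    (Poly.const _) ?_
  have hp' : Poly (fun x : α × ℕ => p x.1) := hp.comp (Poly.fst Poly.id)
  have ht' : Poly (fun x : α × ℕ => t x.1) := ht.comp (Poly.fst Poly.id)
  exact poly_md hp' (Poly.mul (poly_entry (poly_vmul c hp' (poly_uvec u _ hp') ht')
    (Poly.snd Poly.id)) (Poly.mul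
    (poly_pw hp' (poly_entry ht' (Poly.snd Poly.id)) (Poly.sub hp' (Poly.const 2)))
    (poly_pw hp' (poly_rep D hp') (Poly.sub hp' (Poly.const 2)))))

theorem poly_rlist (c u : List ℤ) (D : ℤ) {p M n L H : α → ℕ} (hp : Poly p) (hM : Poly M)
    (hn : UPoly n) (hL : UPoly L) (hH : UPoly H) :
    Poly (fun x => rlist c u D (p x) (M x) (n x) (L x) (H x)) := by
  refine Poly.flatMap (l := fun x => prods c (p x) (lits c (p x) (M x) (n x) (L x) (H x)) c.length)
    (F := fun x t => extr c u D (p x) t) (poly_prods c hp (poly_lits c hp hM hn hL hH) _) ?_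
  exact poly_extr c u D (hp.comp (Poly.fst Poly.id)) (Poly.snd Poly.id)

end Pool.Agent.NPC.H303G
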