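import Mathlib
import Pool.Agent.Helper303_RG.Alg
import Pool.Agent.Helper303_RF.Dlog
import Pool.Agent.Helper303_RF.Correct

/-!
# The values of the tests at the roots
-/

set_option autoImplicit false

namespace Pool.Agent.Helper303_RG

open Pool.Agent.NPC
open Pool.Agent.Helper303_RF (rep mk vadd vsmul xmul vone vzero vmul vpow compl itq smallC cube xv
  bigpow prods ev IsRt ev_vadd ev_vsmul ev_vone ev_vzero ev_xmul ev_vmul ev_vpow cast_pm1 ev_compl
  ev_itq bitK stepK rmdK ev_bigpow ev_xv cast_rep)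
open Pool.Agent.H595R2.PR (md pw strip)

variable {κ : Type} [Field κ] {p : ℕ} [Fact p.Prime] [CharP κ p] {M : ℕ}

theorem ev_ind {c : List ℤ} (hc : 0 < c.length) {z : κ} (hz : IsRt c z) (y : List ℕ) :
    ev c.length z (ind c p M y) = 1 - ev c.length z y ^ M := by
  unfold ind
  rw [ev_compl hc, ev_vpow hc hz]

theorem ev_bit {c : List ℤ} (hc : 0 < c.length) {z : κ} (hz : IsRt c z) (q j : ℕ)
    (ζ w : List ℕ) (d : ℕ) :
    ev c.length z (bit c p M q j ζ w d) =
      bitK M q j (ev c.length z ζ) (ev c.length z w) d := by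
  unfold bit bitK
  rw [ev_ind hc hz, ev_vadd, ev_vsmul, ev_itq hc hz, ev_vpow hc hz, cast_pm1]
  congr 2
  ring

theorem ev_stepW {c : List ℤ} (hc : 0 < c.length) {z : κ} (hz : IsRt c z) (q j : ℕ)
    (ζ us w : List ℕ) :
    ev c.length z (stepW c p M q j ζ us w) =
      stepK M q j (ev c.length z ζ) (ev c.length z us) (ev c.length z w) := by
  unfold stepW stepK
  have key : ∀ m : ℕ, ev c.length z ((List.range m).foldl (fun acc d => vadd c.length p acc
    (vmul c p (bit c p M q j ζ w d) (vmul c p w (vpow c p us (M - d))))) (vzero c.length p)) =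
      ∑ d ∈ Finset.range m, bitK M q j (ev c.length z ζ) (ev c.length z w) d *
        (ev c.length z w * ev c.length z us ^ (M - d)) := by
    intro m
    induction m with
    | zero => simp [ev_vzero]
    | succ m ih =>
      rw [List.range_succ, List.foldl_append, List.foldl_cons, List.foldl_nil, ev_vadd, ih,
        Finset.sum_range_succ, ev_vmul hc hz, ev_vmul hc hz, ev_vpow hc hz, ev_bit hc hz]
  exact key q

theorem ev_rmd {c : List ℤ} (hc : 0 < c.length) {z : κ} (hz : IsRt c z) (q a : ℕ)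
    (ζ u w : List ℕ) : ∀ s ≤ a, ev c.length z (rmd c p M q a ζ u w s) =
      rmdK M q a (ev c.length z ζ) (ev c.length z u) (ev c.length z w) s := by
  intro s
  induction s with
  | zero => intro _; simp [rmd, rmdK]
  | succ s ih =>
    intro hs
    unfold rmd at *
    rw [List.range_succ, List.foldl_append, List.foldl_cons, List.foldl_nil, ev_stepW hc hz,
      ih (by omega), ev_itq hc hz, rmdK, min_eq_left (by omega)]

theorem ev_spl {c : List ℤ} (hc : 0 < c.length) {z : κ} (hz : IsRt c z) :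
    ev c.length z (spl c p M) =
      1 - (z ^ (M + 1) - z) ^ (∏ i ∈ Finset.range c.length, (p ^ (i + 1) - 1)) := by
  unfold spl
  rw [ev_compl hc, ev_bigpow hc hz, ev_vadd, ev_vsmul, ev_vpow hc hz, ev_xv hc hz, cast_pm1]
  congr 2
  ring

theorem ev_spl_one {c : List ℤ} (hc : 0 < c.length) {z : κ} (hz : IsRt c z)
    (h : z ^ (M + 1) = z) : ev c.length z (spl c p M) = 1 := by
  have hp : p.Prime := Fact.out
  rw [ev_spl hc hz, h, sub_self, zero_pow, sub_zero]
  rw [Finset.prod_ne_zero_iff]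
  intro i _
  have : 1 < p ^ (i + 1) := Nat.one_lt_pow (by omega) hp.one_lt
  omega

theorem ev_spl_zero {c : List ℤ} (hc : 0 < c.length) {z : κ} (hz : IsRt c z)
    (h : z ^ (M + 1) ≠ z) {m : ℕ} (hm : 0 < m) (hmc : m ≤ c.length) (hzm : z ^ (p ^ m) = z) :
    ev c.length z (spl c p M) = 0 := by
  have hp : p.Prime := Fact.out
  rw [ev_spl hc hz]
  have h0 : z ^ (M + 1) - z ≠ 0 := sub_ne_zero.2 h
  have h1 : (z ^ (M + 1) - z) ^ (p ^ m) = z ^ (M + 1) - z := by
    rw [sub_pow_char_pow, ← pow_mul, mul_comm, pow_mul, hzm]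
  have h2 : (z ^ (M + 1) - z) ^ (p ^ m - 1) = 1 := by
    have h3 : (z ^ (M + 1) - z) ^ (p ^ m - 1) * (z ^ (M + 1) - z) = 1 * (z ^ (M + 1) - z) := by
      rw [← pow_succ, one_mul, Nat.sub_add_cancel (Nat.one_le_pow _ _ hp.pos), h1]
    exact mul_right_cancel₀ h0 h3
  have h4 : p ^ m - 1 ∣ ∏ i ∈ Finset.range c.length, (p ^ (i + 1) - 1) := by
    have h5 := Finset.dvd_prod_of_mem (fun i => p ^ (i + 1) - 1)
      (Finset.mem_range.2 (by omega : m - 1 < c.length))
    simpa only [Nat.sub_add_cancel hm] using h5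
  obtain ⟨k, hk⟩ := h4
  rw [hk, pow_mul, h2, one_pow, sub_self]

/-- value of an integer polynomial given by its coefficient list -/
def evu (n : ℕ) (z : κ) (u : List ℤ) : κ := ∑ k ∈ Finset.range n, ((u.getD k 0 : ℤ) : κ) * z ^ k

theorem ev_uvec (u : List ℤ) (n : ℕ) (z : κ) : ev n z (uvec u n p) = evu n z u := by
  unfold uvec evu
  rw [Pool.Agent.Helper303_RF.ev_mk]
  refine Finset.sum_congr rfl fun k _ => ?_
  rw [cast_rep (p := p)]
  push_cast
  rw [neg_neg]

/-- no test distinguishes `r` from `r'` -/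
def Unsep (c : List ℤ) (p M n L H : ℕ) (r r' : κ) : Prop :=
  ∀ τ ∈ tests c p M n L H, ev c.length r τ = ev c.length r' τ

theorem mem_tests {c : List ℤ} {p M n L H : ℕ} {α β : List ℕ}
    (hα : α ∈ cube c.length (smallC p H)) (hβ : β ∈ cube c.length (smallC p H)) {q a s d : ℕ}
    (hq : q ≤ L) (ha : a ≤ n) (hs : s < a) (hd : d < q) :
    bit c p M q (a - 1 - s) (itq c p q (a - 1) (vpow c p α (strip q n M)))
      (rmd c p M q a (itq c p q (a - 1) (vpow c p α (strip q n M)))
        (vpow c p α (strip q n M)) (vpow c p β (strip q n M)) s) d ∈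
      tests c p M n L H := by
  unfold tests
  refine List.mem_flatMap.2 ⟨α, hα, List.mem_flatMap.2 ⟨β, hβ, ?_⟩⟩
  unfold tests2
  refine List.mem_flatMap.2 ⟨q, List.mem_range.2 (by omega), List.mem_flatMap.2
    ⟨a, List.mem_range.2 (by omega), ?_⟩⟩
  rw [min_eq_left hq, min_eq_left ha]
  unfold bits1
  refine List.mem_flatMap.2 ⟨s, List.mem_range.2 hs, List.mem_map.2 ⟨d, List.mem_range.2 hd, ?_⟩⟩
  rw [min_eq_left hs.le]

theorem tests_val {c : List ℤ} {n L H : ℕ} (hc : 0 < c.length) (hM : 0 < M)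
    (hM1 : ∀ x : κ, x ≠ 0 → x ^ M = 1) {r : κ}
    (hr : IsRt c r) {τ : List ℕ} (hτ : τ ∈ tests c p M n L H) :
    ev c.length r τ = 0 ∨ ev c.length r τ = 1 := by
  unfold tests at hτ
  obtain ⟨α, -, hτ⟩ := List.mem_flatMap.1 hτ
  obtain ⟨β, -, hτ⟩ := List.mem_flatMap.1 hτ
  unfold tests2 at hτ
  obtain ⟨q, -, hτ⟩ := List.mem_flatMap.1 hτ
  obtain ⟨a, -, hτ⟩ := List.mem_flatMap.1 hτ
  unfold bits1 at hτ
  obtain ⟨s, -, hτ⟩ := List.mem_flatMap.1 hτ
  obtain ⟨d, -, hτ⟩ := List.mem_map.1 hτ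
  rw [← hτ, ev_bit hc hr]
  set ζ := ev c.length r (itq c p (min q L) (min a n - 1) (vpow c p α (strip (min q L) n M)))
  set w := ev c.length r (rmd c p M (min q L) (min a n)
    (itq c p (min q L) (min a n - 1) (vpow c p α (strip (min q L) n M)))
      (vpow c p α (strip (min q L) n M)) (vpow c p β (strip (min q L) n M))
        (min s (min a n)))
  by_cases h : w ^ (min q L) ^ (min a n - 1 - s) = ζ ^ d
  · right
    exact Pool.Agent.Helper303_RF.bitK_one hM h
  · left
    exact Pool.Agent.Helper303_RF.bitK_zero hM1 h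

end Pool.Agent.Helper303_RG
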