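import Mathlib
import Pool.Agent.Helper303_RG.Group

/-!
# The list of candidates contains every root which is separated from the other roots
-/

set_option autoImplicit false

namespace Pool.Agent.Helper303_RG

open Pool.Agent.Helper303_RF (rep mk vadd vsmul xmul vone vzero vmul vpow compl itq smallC cube xv
  bigpow prods ev IsRt ev_vadd ev_vsmul ev_vone ev_vzero ev_xmul ev_vmul ev_vpow cast_pm1 ev_compl
  ev_itq coef_eq ev_foldr mem_prods cast_md cast_rep)
open Pool.Agent.H595R2.PR (md pw strip)

section ext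

variable {κ : Type} [Field κ] {Ω : Type} [Field Ω] [Algebra κ Ω]

theorem isRt_map {c : List ℤ} {r : κ} : IsRt c (algebraMap κ Ω r) ↔ IsRt c r := by
  unfold IsRt
  have h : (algebraMap κ Ω r) ^ c.length +
      ∑ k ∈ Finset.range c.length, ((c.getD k 0 : ℤ) : Ω) * (algebraMap κ Ω r) ^ k =
      algebraMap κ Ω (r ^ c.length +
        ∑ k ∈ Finset.range c.length, ((c.getD k 0 : ℤ) : κ) * r ^ k) := by
    simp
  rw [h, map_eq_zero_iff _ (algebraMap κ Ω).injective]

theorem ev_map (n : ℕ) (r : κ) (x : List ℕ) :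
    ev n (algebraMap κ Ω r) x = algebraMap κ Ω (ev n r x) := by
  unfold ev
  simp

theorem evu_map (n : ℕ) (r : κ) (u : List ℤ) :
    evu n (algebraMap κ Ω r) u = algebraMap κ Ω (evu n r u) := by
  unfold evu
  simp

end ext

theorem int_pow_pm1 {Ω : Type} [Field Ω] {p : ℕ} [Fact p.Prime] [CharP Ω p] (a : ℤ)
    (h : (a : Ω) ≠ 0) : (a : Ω) ^ (p - 1) = 1 := by
  have h1 : (a : ZMod p) ≠ 0 := by
    intro h2
    apply h
    rw [ZMod.intCast_zmod_eq_zero_iff_dvd] at h2
    obtain ⟨b, rfl⟩ := h2
    push_cast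
    rw [CharP.cast_eq_zero Ω p, zero_mul]
  have h2 := ZMod.pow_card_sub_one_eq_one h1
  have h3 := congrArg (ZMod.castHom (dvd_refl p) Ω) h2
  rw [map_pow, map_intCast, map_one] at h3
  exact h3

/-- The list of candidates contains every root which is separated from the other roots. -/
theorem rlist_correct {c u : List ℤ} {D : ℤ} {p M n L H : ℕ} [Fact p.Prime] (hc : 0 < c.length)
    (κ : Type) [Field κ] [Fintype κ] [CharP κ p] (hcard : Fintype.card κ = M + 1) (hM : 0 < M)
    (Ω : Type) [Field Ω] [Algebra κ Ω] (Z : Finset Ω)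
    (hZ : Z.card = c.length) (hZr : ∀ z ∈ Z, IsRt c z)
    (hZf : ∀ z ∈ Z, ∃ m, 0 < m ∧ m ≤ c.length ∧ z ^ (p ^ m) = z)
    {θ : κ} (hθ : algebraMap κ Ω θ ∈ Z) {r : ℕ} (hrp : r < p) (hD : (D : κ) ≠ 0)
    (hθr : evu c.length θ u = (D : κ) * (r : κ))
    (hsep : ∀ θ' : κ, algebraMap κ Ω θ' ∈ Z → evu c.length θ' u ≠ evu c.length θ u →
      ¬ Unsep c p M n L H θ θ') :
    r ∈ rlist c u D p M n L H := by
  classical
  have hp : p.Prime := Fact.out
  have : CharP Ω p := charP_of_injective_algebraMap (algebraMap κ Ω).injective p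
  have hM1 : ∀ x : κ, x ≠ 0 → x ^ M = 1 := by
    intro x hx
    have := FiniteField.pow_card_sub_one_eq_one x hx
    rwa [hcard, Nat.add_sub_cancel] at this
  have hfrob : ∀ x : κ, x ^ (M + 1) = x := by
    intro x
    rw [← hcard]
    exact FiniteField.pow_card x
  set am := algebraMap κ Ω with ham
  have hrr : IsRt c θ := isRt_map.1 (hZr _ hθ)
  -- the literal which separates `θ'`
  have hlit : ∀ θ' : κ, am θ' ∈ Z → evu c.length θ' u ≠ evu c.length θ u →
      ∃ y ∈ lits c p M n L H, ev c.length θ y = 1 ∧ ev c.length θ' y = 0 := by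
    intro r' hr' hne
    have h1 := hsep r' hr' hne
    unfold Unsep at h1
    push Not at h1
    obtain ⟨τ, hτ, hτ2⟩ := h1
    have hrr' : IsRt c r' := isRt_map.1 (hZr _ hr')
    rcases tests_val hc hM hM1 hrr hτ with h | h <;> rcases tests_val hc hM hM1 hrr' hτ with h' | h'
    · exact absurd (h.trans h'.symm) hτ2
    · refine ⟨compl c p τ, ?_, ?_, ?_⟩
      · unfold lits
        exact List.mem_cons_of_mem _ (List.mem_append_right _ (List.mem_map.2 ⟨τ, hτ, rfl⟩))
      · rw [ev_compl hc, h, sub_zero]
      · rw [ev_compl hc, h', sub_self]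
    · refine ⟨τ, ?_, h, h'⟩
      unfold lits
      exact List.mem_cons_of_mem _ (List.mem_append_left _ hτ)
    · exact absurd (h.trans h'.symm) hτ2
  choose! lit hlit1 hlit2 hlit3 using hlit
  set O : Finset κ := (Finset.univ.filter fun r' : κ => am r' ∈ Z ∧
    evu c.length r' u ≠ evu c.length θ u) with hO
  have hOc : O.card + 1 ≤ c.length := by
    have h1 : insert θ O ⊆ Finset.univ.filter fun r' : κ => am r' ∈ Z := by
      intro x hx
      rcases Finset.mem_insert.1 hx with h | h
      · rw [h]
        exact Finset.mem_filter.2 ⟨Finset.mem_univ _, hθ⟩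
      · exact Finset.mem_filter.2 ⟨Finset.mem_univ _, (Finset.mem_filter.1 h).2.1⟩
    have h2 : (Finset.univ.filter fun r' : κ => am r' ∈ Z).card ≤ Z.card := by
      refine Finset.card_le_card_of_injOn am ?_ ?_
      · intro x hx
        exact (Finset.mem_filter.1 hx).2
      · intro x _ y _ h
        exact am.injective h
    have h3 : (insert θ O).card = O.card + 1 := by
      apply Finset.card_insert_of_notMem
      intro h
      exact (Finset.mem_filter.1 h).2.2 rfl
    have h4 := Finset.card_le_card h1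
    omega
  set ys : List (List ℕ) := List.replicate (c.length - O.card) (spl c p M) ++ O.toList.map lit
    with hys
  have hyl : ys.length = c.length := by
    rw [hys, List.length_append, List.length_replicate, List.length_map, Finset.length_toList]
    omega
  have hspl : spl c p M ∈ ys := by
    rw [hys]
    exact List.mem_append_left _ (List.mem_replicate.2 ⟨by omega, rfl⟩)
  have hysl : ∀ y ∈ ys, y ∈ lits c p M n L H := by
    intro y hy
    rw [hys] at hy
    rcases List.mem_append.1 hy with h | h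
    · rw [(List.mem_replicate.1 h).2]
      exact List.mem_cons_self ..
    · obtain ⟨r', hr', h1⟩ := List.mem_map.1 h
      have h2 := (Finset.mem_filter.1 (Finset.mem_toList.1 hr')).2
      rw [← h1]
      exact hlit1 r' h2.1 h2.2
  set t := ys.foldr (vmul c p) (vone c.length p) with ht
  have htm : t ∈ prods c p (lits c p M n L H) c.length := by
    rw [← hyl]
    exact mem_prods c p _ ys hysl
  have htr : ev c.length θ t = 1 := by
    rw [ht, ev_foldr hc hrr]
    apply List.prod_eq_one
    intro x hx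
    obtain ⟨y, hy, rfl⟩ := List.mem_map.1 hx
    rw [hys] at hy
    rcases List.mem_append.1 hy with h | h
    · rw [(List.mem_replicate.1 h).2]
      exact ev_spl_one hc hrr (hfrob θ)
    · obtain ⟨r', hr', h1⟩ := List.mem_map.1 h
      have h2 := (Finset.mem_filter.1 (Finset.mem_toList.1 hr')).2
      rw [← h1]
      exact hlit2 r' h2.1 h2.2
  have ht0 : ∀ z ∈ Z, evu c.length z u ≠ am (evu c.length θ u) → ev c.length z t = 0 := by
    intro z hz hne
    rw [ht, ev_foldr hc (hZr z hz)]
    apply List.prod_eq_zero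
    by_cases hzp : z ^ (M + 1) = z
    · -- `z` comes from `κ`
      obtain ⟨r', hr'⟩ : ∃ r' : κ, am r' = z := by
        have hM1' : 1 < M + 1 := by omega
        have h2 : (Polynomial.X ^ (M + 1) - Polynomial.X : Polynomial Ω) ≠ 0 := by
          exact FiniteField.X_pow_card_sub_X_ne_zero Ω hM1'
        have h3 : (Finset.univ.image am : Finset Ω) =
            (Polynomial.X ^ (M + 1) - Polynomial.X : Polynomial Ω).roots.toFinset := by
          apply Finset.eq_of_subset_of_card_le
          · intro x hx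
            obtain ⟨y, -, rfl⟩ := Finset.mem_image.1 hx
            rw [Multiset.mem_toFinset, Polynomial.mem_roots h2]
            simp only [Polynomial.IsRoot.def, Polynomial.eval_sub, Polynomial.eval_pow,
              Polynomial.eval_X]
            rw [← map_pow, hfrob, sub_self]
          · rw [Finset.card_image_of_injective _ am.injective, Finset.card_univ, hcard]
            refine (Multiset.toFinset_card_le _).trans ((Polynomial.card_roots' _).trans ?_)
            rw [FiniteField.X_pow_card_sub_X_natDegree_eq Ω hM1']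
        have h4 : z ∈ (Finset.univ.image am : Finset Ω) := by
          rw [h3, Multiset.mem_toFinset, Polynomial.mem_roots h2]
          simp only [Polynomial.IsRoot.def, Polynomial.eval_sub, Polynomial.eval_pow,
              Polynomial.eval_X]
          rw [hzp, sub_self]
        obtain ⟨y, -, hy⟩ := Finset.mem_image.1 h4
        exact ⟨y, hy⟩
      have hr'Z : am r' ∈ Z := by rw [hr']; exact hz
      have hr'ne : evu c.length r' u ≠ evu c.length θ u := by
        intro h
        apply hne
        rw [← hr', ham, evu_map, h]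
      refine List.mem_map.2 ⟨lit r', ?_, ?_⟩
      · rw [hys]
        exact List.mem_append_right _ (List.mem_map.2 ⟨r', Finset.mem_toList.2
          (Finset.mem_filter.2 ⟨Finset.mem_univ _, hr'Z, hr'ne⟩), rfl⟩)
      · rw [← hr', ham, ev_map, hlit3 r' hr'Z hr'ne, map_zero]
    · obtain ⟨m, hm, hmc, hzm⟩ := hZf z hz
      exact List.mem_map.2 ⟨spl c p M, hspl, ev_spl_zero hc (hZr z hz) hzp hm hmc hzm⟩
  have hDr : am (evu c.length θ u) = (D : Ω) * (r : Ω) := by
    rw [hθr, map_mul, map_intCast, map_natCast]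
  -- the entries of `u * t`
  have hcoef := coef_eq Z hZ (fun k => (((vmul c p (uvec u c.length p) t).getD k 0 : ℕ) : Ω))
      (fun k => ((D : Ω) * (r : Ω)) * ((t.getD k 0 : ℕ) : Ω)) (by
        intro z hz
        have h2 := ev_vmul (p := p) hc (hZr z hz) (uvec u c.length p) t
        rw [ev_uvec] at h2
        have h3 : ∑ k ∈ Finset.range c.length,
            (((vmul c p (uvec u c.length p) t).getD k 0 : ℕ) : Ω) * z ^ k =
            ev c.length z (vmul c p (uvec u c.length p) t) := rfl
        rw [h3, h2]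
        simp only [mul_assoc]
        rw [← Finset.mul_sum, ← Finset.mul_sum]
        have h4 : ∑ k ∈ Finset.range c.length, ((t.getD k 0 : ℕ) : Ω) * z ^ k =
            ev c.length z t := rfl
        rw [h4, ← mul_assoc, ← hDr]
        by_cases hzr : evu c.length z u = am (evu c.length θ u)
        · rw [hzr]
        · rw [ht0 z hz hzr, mul_zero, mul_zero])
  have htne : ∃ k < c.length, ((t.getD k 0 : ℕ) : Ω) ≠ 0 := by
    by_contra hcon
    push Not at hcon
    apply one_ne_zero (α := Ω)
    rw [← map_one am, ← htr, ham, ← ev_map]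
    unfold ev
    exact Finset.sum_eq_zero fun k hk => by rw [hcon k (Finset.mem_range.1 hk), zero_mul]
  obtain ⟨k, hk, hk0⟩ := htne
  unfold rlist
  refine List.mem_flatMap.2 ⟨t, htm, ?_⟩
  unfold extr
  refine List.mem_map.2 ⟨k, List.mem_range.2 hk, ?_⟩
  have hDΩ : (D : Ω) ≠ 0 := by
    intro h
    apply hD
    apply am.injective
    rw [map_intCast, h, map_zero]
  have e1 : ((t.getD k 0 : ℕ) : Ω) ^ (p - 1) = 1 := by
    have := int_pow_pm1 (Ω := Ω) (p := p) ((t.getD k 0 : ℕ) : ℤ) (by
      rw [Int.cast_natCast]; exact hk0)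
    rwa [Int.cast_natCast] at this
  have e2 : (D : Ω) ^ (p - 1) = 1 := int_pow_pm1 D hDΩ
  have e3 : ∀ x : Ω, x ^ (p - 1) = 1 → x * x ^ (p - 2) = 1 := by
    intro x hx
    rw [← pow_succ', show p - 2 + 1 = p - 1 by have := hp.two_le; omega, hx]
  have h1 : ((md p ((vmul c p (uvec u c.length p) t).getD k 0 *
      (pw p (t.getD k 0) (p - 2) * pw p (rep D p) (p - 2))) : ℕ) : Ω) = (r : Ω) := by
    rw [cast_md (p := p), Nat.cast_mul, Nat.cast_mul, Pool.Agent.H595R2.PR.pw_eq,
      Pool.Agent.H595R2.PR.pw_eq, cast_md (p := p), cast_md (p := p), Nat.cast_pow, Nat.cast_pow,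
      hcoef k hk, cast_rep (p := p)]
    have f1 := e3 _ e1
    have f2 := e3 _ e2
    calc (D : Ω) * (r : Ω) * ((t.getD k 0 : ℕ) : Ω) * (((t.getD k 0 : ℕ) : Ω) ^ (p - 2) *
        (D : Ω) ^ (p - 2)) = (r : Ω) * (((t.getD k 0 : ℕ) : Ω) * ((t.getD k 0 : ℕ) : Ω) ^ (p - 2)) *
          ((D : Ω) * (D : Ω) ^ (p - 2)) := by ring
      _ = (r : Ω) := by rw [f1, f2, mul_one, mul_one]
  refine CharP.natCast_injOn_Iio Ω p (Set.mem_Iio.2 ?_) (Set.mem_Iio.2 hrp) h1
  unfold md
  rw [max_eq_left hp.one_lt.le]
  exact Nat.mod_lt _ hp.pos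

end Pool.Agent.Helper303_RG
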