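import Mathlib
import Pool.Agent.Helper303_RG.Correct
import Pool.Agent.Helper303_RF.Sep

/-!
# Roots in the algebraic closure
-/

set_option autoImplicit false

namespace Pool.Agent.Helper303_RG

open Polynomial
open Pool.Agent.Helper303_RF (lowc lowc_length isRt_lowc IsRt)

/-- elements of degree at most `n` over the prime field -/
theorem frob_of_root {p : ℕ} [Fact p.Prime] {Ω : Type} [Field Ω] [CharP Ω p] {f : ℤ[X]}
    (hm : f.Monic) {z : Ω} (hz : f.eval₂ (Int.castRingHom Ω) z = 0) :
    ∃ m, 0 < m ∧ m ≤ f.natDegree ∧ z ^ (p ^ m) = z := by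
  letI : Algebra (ZMod p) Ω := ZMod.algebra Ω p
  set g := f.map (Int.castRingHom (ZMod p)) with hg
  have hgm : g.Monic := hm.map _
  have hgd : g.natDegree = f.natDegree := hm.natDegree_map _
  have hz2 : aeval z g = 0 := by
    rw [aeval_def, hg, eval₂_map, ← hz]
    congr 1
    exact RingHom.ext_int _ _
  have hzi : IsIntegral (ZMod p) z := ⟨g, hgm, hz2⟩
  refine ⟨(minpoly (ZMod p) z).natDegree, minpoly.natDegree_pos hzi, ?_, ?_⟩
  · rw [← hgd]
    exact natDegree_le_of_dvd (minpoly.dvd _ _ hz2) hgm.ne_zero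
  · have : FiniteDimensional (ZMod p) (IntermediateField.adjoin (ZMod p) {z}) :=
      IntermediateField.adjoin.finiteDimensional hzi
    have : Finite (IntermediateField.adjoin (ZMod p) {z}) :=
      Module.finite_of_finite (ZMod p)
    have := Fintype.ofFinite (IntermediateField.adjoin (ZMod p) {z})
    have h1 : Fintype.card (IntermediateField.adjoin (ZMod p) {z}) =
        p ^ (minpoly (ZMod p) z).natDegree := by
      rw [Module.card_eq_pow_finrank (K := ZMod p), ZMod.card,
        IntermediateField.adjoin.finrank hzi]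
    have h2 := FiniteField.pow_card (IntermediateField.AdjoinSimple.gen (ZMod p) z)
    rw [h1] at h2
    have h3 := congrArg (fun y : IntermediateField.adjoin (ZMod p) {z} => (y : Ω)) h2
    simpa using h3

/-- a root which is not in the list of candidates is not separated from another root -/
theorem exists_unsep {f : ℤ[X]} (hm : f.Monic) (hd : 0 < f.natDegree) {p M : ℕ} [Fact p.Prime]
    (hsep : (f.map (Int.castRingHom (ZMod p))).Separable)
    (κ : Type) [Field κ] [Fintype κ] [CharP κ p] (hcard : Fintype.card κ = M + 1) (hM : 0 < M)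
    {u : List ℤ} {D : ℤ} {n L H : ℕ} {θ : κ}
    (hθ : f.eval₂ (Int.castRingHom κ) θ = 0) {r : ℕ} (hrp : r < p) (hD : (D : κ) ≠ 0)
    (hθr : evu f.natDegree θ u = (D : κ) * (r : κ))
    (hbad : r ∉ rlist (lowc f) u D p M n L H) :
    ∃ θ' : κ, f.eval₂ (Int.castRingHom κ) θ' = 0 ∧ evu f.natDegree θ' u ≠ evu f.natDegree θ u ∧
      Unsep (lowc f) p M n L H θ θ' := by
  classical
  set Ω := AlgebraicClosure κ with hΩ
  have : CharP Ω p := charP_of_injective_algebraMap (algebraMap κ Ω).injective p
  set g := f.map (Int.castRingHom κ) with hg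
  have hgm : g.Monic := hm.map _
  have hgd : g.natDegree = f.natDegree := hm.natDegree_map _
  have hgs : g.Separable := by
    have h1 : g = (f.map (Int.castRingHom (ZMod p))).map (ZMod.castHom (dvd_refl p) κ) := by
      rw [hg, Polynomial.map_map]
      congr 1
      exact RingHom.ext_int _ _
    rw [h1]
    exact hsep.map
  set Z : Finset Ω := (g.aroots Ω).toFinset with hZ
  have hmem : ∀ z : Ω, z ∈ Z ↔ IsRt (lowc f) z := by
    intro z
    rw [hZ, Multiset.mem_toFinset, mem_aroots, isRt_lowc hm]
    have h1 : aeval z g = f.eval₂ (Int.castRingHom Ω) z := by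
      rw [aeval_def, hg, eval₂_map]
      congr 1
    rw [h1]
    exact ⟨fun h => h.2, fun h => ⟨hgm.ne_zero, h⟩⟩
  have hZcard : Z.card = (lowc f).length := by
    rw [lowc_length, ← hgd]
    have h1 := card_rootSet_eq_natDegree (K := Ω) hgs (IsAlgClosed.splits _)
    have h2 : Fintype.card (g.rootSet Ω) = Z.card := by
      simp only [rootSet_def, ← hZ]
      exact Fintype.card_coe Z
    rw [← h2]
    convert! h1
  have hc : 0 < (lowc f).length := by rw [lowc_length]; exact hd
  have hlen := lowc_length f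
  by_contra hcon
  push Not at hcon
  apply hbad
  refine rlist_correct hc κ hcard hM Ω Z hZcard (fun z hz => (hmem z).1 hz) ?_ ((hmem _).2 ?_) hrp hD
    (by rw [hlen]; exact hθr) ?_
  · intro z hz
    obtain ⟨m, h1, h2, h3⟩ := frob_of_root (p := p) hm ((isRt_lowc hm).1 ((hmem z).1 hz))
    exact ⟨m, h1, by rw [hlen]; exact h2, h3⟩
  · rw [isRt_map]
    exact (isRt_lowc hm).2 hθ
  · intro r' hr' hne
    have h1 := (hmem _).1 hr'
    rw [isRt_map] at h1
    rw [hlen] at hne
    exact hcon r' ((isRt_lowc hm).1 h1) hne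

end Pool.Agent.Helper303_RG
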