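import Mathlib
import Pool.Agent.Helper303_RG.Sep
import Pool.Agent.Helper303_RF.Pair

/-!
# The vectors whose values at two roots are in the group
-/

set_option autoImplicit false

namespace Pool.Agent.Helper303_RG

open Finset hiding val
open Polynomial
open Pool.Agent.H595R2.PR (md pw strip)
open Pool.Agent.Helper303_RF (val redu cube smallC mem_cube cast_md cast_pm1 ev)

section

variable {p : ℕ} [Fact p.Prime] {κ : Type} [Field κ] [Algebra (ZMod p) κ]

/-- value of a vector over `F_p` -/
def vl {n : ℕ} (r : κ) (z : Fin n → ZMod p) : κ := ∑ i, algebraMap (ZMod p) κ (z i) * r ^ (i : ℕ)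

theorem vl_redu {n : ℕ} (r : κ) (b : Fin n → ℤ) : vl r (redu p b) = val r b := by
  unfold vl val redu
  simp

open Classical in
/-- the vectors whose values at `r`, `r'` are in the group `G` -/
noncomputable def AA (p n : ℕ) [Fact p.Prime] [Algebra (ZMod p) κ] (r r' : κ)
    (G : Subgroup (κˣ × κˣ)) : Finset (Fin n → ZMod p) :=
  univ.filter fun z => ∃ g ∈ G, (g.1 : κ) = vl r z ∧ (g.2 : κ) = vl r' z

theorem mem_AA {n : ℕ} {r r' : κ} {G : Subgroup (κˣ × κˣ)} {z : Fin n → ZMod p} :
    z ∈ AA p n r r' G ↔ ∃ g ∈ G, (g.1 : κ) = vl r z ∧ (g.2 : κ) = vl r' z := by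
  classical
  unfold AA
  rw [mem_filter]
  exact and_iff_right (mem_univ _)

/-- polynomials of small degree take all pairs of values -/
theorem exists_vl {f : ℤ[X]} (hm : f.Monic) {θ θ' : κ}
    (hθ : f.eval₂ (Int.castRingHom κ) θ = 0) (hθ' : f.eval₂ (Int.castRingHom κ) θ' = 0)
    (hint : IsIntegral (ZMod p) θ) (hint' : IsIntegral (ZMod p) θ')
    (hgen : ∀ a : κ, ∃ P : (ZMod p)[X], aeval θ P = a)
    (hgen' : ∀ a : κ, ∃ P : (ZMod p)[X], aeval θ' P = a)
    {u : (ZMod p)[X]} {c : ZMod p} (hu : aeval θ u = algebraMap (ZMod p) κ c)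
    (hu' : aeval θ' u ≠ algebraMap (ZMod p) κ c) (a b : κ) :
    ∃ z : Fin f.natDegree → ZMod p, vl θ z = a ∧ vl θ' z = b := by
  set g := f.map (Int.castRingHom (ZMod p)) with hg
  have hgm : g.Monic := hm.map _
  have hgd : g.natDegree = f.natDegree := hm.natDegree_map _
  have hg0 : ∀ z : κ, f.eval₂ (Int.castRingHom κ) z = 0 → aeval z g = 0 := by
    intro z hz
    rw [aeval_def, hg, eval₂_map, ← hz]
    congr 1
    exact RingHom.ext_int _ _
  have hcop : IsCoprime (minpoly (ZMod p) θ) (minpoly (ZMod p) θ') := by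
    rw [(minpoly.irreducible hint).coprime_iff_not_dvd]
    intro hdvd
    have h1 : Associated (minpoly (ZMod p) θ) (minpoly (ZMod p) θ') :=
      (minpoly.irreducible hint).associated_of_dvd (minpoly.irreducible hint') hdvd
    have h2 : minpoly (ZMod p) θ = minpoly (ZMod p) θ' :=
      eq_of_monic_of_associated (minpoly.monic hint) (minpoly.monic hint') h1
    apply hu'
    have h3 : minpoly (ZMod p) θ ∣ u - C c := by
      apply minpoly.dvd
      rw [map_sub, aeval_C, hu, sub_self]
    rw [h2] at h3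
    obtain ⟨w, hw⟩ := h3
    have h4 : aeval θ' (u - C c) = 0 := by
      rw [hw, map_mul, minpoly.aeval, zero_mul]
    rw [map_sub, aeval_C, sub_eq_zero] at h4
    exact h4
  obtain ⟨s, t, hst⟩ := hcop
  obtain ⟨A, hA⟩ := hgen a
  obtain ⟨B, hB⟩ := hgen' b
  set P := A * (t * minpoly (ZMod p) θ') + B * (s * minpoly (ZMod p) θ) with hP
  have e1 : aeval θ P = a := by
    have h1 := congrArg (aeval θ) hst
    rw [map_add, map_mul, minpoly.aeval, mul_zero, zero_add, map_one] at h1
    rw [hP, map_add, map_mul, h1, map_mul, map_mul, minpoly.aeval, mul_zero, mul_zero, hA]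
    ring
  have e2 : aeval θ' P = b := by
    have h1 := congrArg (aeval θ') hst
    rw [map_add, map_mul, map_mul, minpoly.aeval, mul_zero, add_zero, map_one] at h1
    rw [hP, map_add, map_mul, map_mul, map_mul, map_mul, minpoly.aeval, mul_zero, mul_zero,
      zero_add, h1, hB, mul_one]
  have hn : (P %ₘ g).natDegree < f.natDegree ∨ f.natDegree = 0 := by
    rcases Nat.eq_zero_or_pos f.natDegree with h0 | h0
    · right; exact h0
    · left
      rw [← hgd] at h0 ⊢
      exact natDegree_modByMonic_lt _ hgm (by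
        intro h1
        rw [h1, natDegree_one] at h0
        exact lt_irrefl _ h0)
  have hn' : (P %ₘ g).natDegree < f.natDegree := by
    rcases hn with h | h
    · exact h
    · exfalso
      have h1 : f = 1 := eq_one_of_monic_natDegree_zero hm h
      rw [h1, eval₂_one] at hθ
      exact one_ne_zero hθ
  have key : ∀ z : κ, aeval z g = 0 →
      vl z (fun i : Fin f.natDegree => (P %ₘ g).coeff i) = aeval z P := by
    intro z hz
    rw [← aeval_modByMonic_eq_self_of_root hz, aeval_eq_sum_range' hn']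
    unfold vl
    rw [Fin.sum_univ_eq_sum_range (fun k => algebraMap (ZMod p) κ ((P %ₘ g).coeff k) * z ^ k)]
    refine sum_congr rfl fun k _ => ?_
    rw [Algebra.smul_def]
  exact ⟨_, by rw [key θ (hg0 θ hθ), e1], by rw [key θ' (hg0 θ' hθ'), e2]⟩

theorem AA_card [Fintype κ] {n : ℕ} {r r' : κ}
    (hsurj : ∀ a b : κ, ∃ z : Fin n → ZMod p, vl r z = a ∧ vl r' z = b)
    (G : Subgroup (κˣ × κˣ)) :
    (AA p n r r' G).card * (Fintype.card κ) ^ 2 = Nat.card G * p ^ n := by
  classical
  have hp : p.Prime := Fact.out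
  set ψ : (Fin n → ZMod p) →+ κ × κ :=
    { toFun := fun z => (vl r z, vl r' z)
      map_zero' := by simp [vl]
      map_add' := by
        intro x y
        simp [vl, add_mul, sum_add_distrib] } with hψ
  have hsurj' : Function.Surjective ψ := by
    rintro ⟨a, b⟩
    obtain ⟨z, h1, h2⟩ := hsurj a b
    exact ⟨z, Prod.ext h1 h2⟩
  -- all fibres have the same size
  set F : ℕ := (univ.filter fun z => ψ z = 0).card with hF
  have hfib : ∀ w : κ × κ, (univ.filter fun z => ψ z = w).card = F := by
    intro w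
    exact AddMonoidHom.card_fiber_eq_of_mem_range ψ (hsurj' w) (hsurj' 0)
  have htot : p ^ n = (Fintype.card κ) ^ 2 * F := by
    have h1 : (univ : Finset (Fin n → ZMod p)).card = ∑ w : κ × κ,
        (univ.filter fun z => ψ z = w).card := by
      apply card_eq_sum_card_fiberwise
      intro z _
      exact mem_coe.2 (mem_univ _)
    simp_rw [hfib] at h1
    rw [sum_const, card_univ, card_univ, Fintype.card_prod, Fintype.card_pi] at h1
    simp only [ZMod.card, prod_const, card_univ, Fintype.card_fin, smul_eq_mul] at h1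
    rw [h1, sq]
  have hA : (AA p n r r' G).card = Nat.card G * F := by
    set T : Finset (κ × κ) := (univ.filter fun g : κˣ × κˣ => g ∈ G).image
      (fun g => ((g.1 : κ), (g.2 : κ))) with hT
    have hTc : T.card = Nat.card G := by
      rw [hT, card_image_of_injective]
      · rw [Nat.card_eq_fintype_card, Fintype.card_subtype]
      · rintro ⟨a, b⟩ ⟨a', b'⟩ h
        simp only [Prod.mk.injEq] at h
        exact Prod.ext (Units.ext h.1) (Units.ext h.2)
    have h1 : (AA p n r r' G).card = ∑ w ∈ T, ((AA p n r r' G).filter fun z => ψ z = w).card := by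
      apply card_eq_sum_card_fiberwise
      intro z hz
      obtain ⟨g, hg, h1, h2⟩ := mem_AA.1 (mem_coe.1 hz)
      refine mem_coe.2 (mem_image.2 ⟨g, mem_filter.2 ⟨mem_univ _, hg⟩, ?_⟩)
      exact Prod.ext h1 h2
    rw [h1, ← hTc, ← smul_eq_mul, ← sum_const]
    refine sum_congr rfl fun w hw => ?_
    rw [← hfib w]
    congr 1
    ext z
    simp only [mem_filter, mem_univ, true_and, and_iff_right_iff_imp]
    intro hz
    obtain ⟨g, hg, h2⟩ := mem_image.1 hw
    rw [mem_AA]
    refine ⟨g, (mem_filter.1 hg).2, ?_⟩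
    rw [← h2] at hz
    exact ⟨(congrArg Prod.fst hz).symm, (congrArg Prod.snd hz).symm⟩
  rw [hA, htot]
  ring

end

/-- small integer vectors are in the cube -/
theorem small_mem {n : ℕ} {p : ℕ} [Fact p.Prime] {H : ℕ} (a : Fin n → ℤ)
    (ha : ∀ i, |a i| ≤ (H : ℤ)) :
    ∃ α ∈ cube n (smallC p H), ∀ (κ : Type) [Field κ] [CharP κ p] (z : κ), ev n z α = val z a := by
  have hp : p.Prime := Fact.out
  set g : Fin n → ℕ := fun i => md p ((a i + H).toNat + H * (p - 1)) with hg
  refine ⟨List.ofFn g, ?_, ?_⟩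
  · have h1 := mem_cube (smallC p H) (List.ofFn g) (by
      intro x hx
      obtain ⟨i, rfl⟩ := List.mem_ofFn.1 hx
      unfold smallC
      refine List.mem_map.2 ⟨(a i + H).toNat, List.mem_range.2 ?_, rfl⟩
      have h2 := ha i
      rw [abs_le] at h2
      omega)
    rwa [List.length_ofFn] at h1
  · intro κ _ _ z
    unfold ev val
    rw [← Fin.sum_univ_eq_sum_range (fun k => (((List.ofFn g).getD k 0 : ℕ) : κ) * z ^ k)]
    refine sum_congr rfl fun i _ => ?_
    congr 1
    have h1 : (List.ofFn g).getD i 0 = g i := by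
      rw [List.getD_eq_getElem?_getD, List.getElem?_ofFn]
      simp
    rw [h1]
    simp only [hg]
    rw [cast_md (p := p)]
    push_cast
    rw [cast_pm1 (p := p)]
    have h2 : (((a i + H).toNat : ℕ) : κ) = (a i : κ) + H := by
      have h3 : ((a i + H).toNat : ℤ) = a i + H := by
        have := ha i
        rw [abs_le] at this
        omega
      rw [← Int.cast_natCast, h3]
      push_cast
      rfl
    rw [h2]
    ring

/-- products of small elements are in the group -/
theorem prod_mem {c : List ℤ} {p : ℕ} [Fact p.Prime] {κ : Type} [Field κ] [CharP κ p] {H : ℕ}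
    (r r' : κ) (T : List (Fin c.length → ℤ)) (hT : ∀ a ∈ T, ∀ i, |a i| ≤ (H : ℤ))
    (h0 : ∀ a ∈ T, val r a ≠ 0) (h0' : ∀ a ∈ T, val r' a ≠ 0) :
    ∃ g ∈ GG c p H r r', (g.1 : κ) = (T.map (val r)).prod ∧
      (g.2 : κ) = (T.map (val r')).prod := by
  induction T with
  | nil => exact ⟨1, one_mem _, by simp, by simp⟩
  | cons a T ih =>
    obtain ⟨g, hg, h1, h2⟩ := ih (fun b hb => hT b (List.mem_cons_of_mem _ hb))
      (fun b hb => h0 b (List.mem_cons_of_mem _ hb)) (fun b hb => h0' b (List.mem_cons_of_mem _ hb))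
    obtain ⟨α, hα, hα2⟩ := small_mem (p := p) a (hT a (List.mem_cons_self ..))
    refine ⟨(Units.mk0 _ (h0 a (List.mem_cons_self ..)),
      Units.mk0 _ (h0' a (List.mem_cons_self ..))) * g, mul_mem (Subgroup.subset_closure
        ⟨α, hα, ?_, ?_⟩) hg, ?_, ?_⟩
    · rw [hα2 κ]; rfl
    · rw [hα2 κ]; rfl
    · rw [List.map_cons, List.prod_cons, ← h1]; rfl
    · rw [List.map_cons, List.prod_cons, ← h2]; rfl

end Pool.Agent.Helper303_RG
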