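import Mathlib
import Pool.Agent.Helper303_RG.Pair
import Pool.Agent.Helper303_RF.Mono

/-!
# The residues of a bad prime
-/

set_option autoImplicit false

namespace Pool.Agent.Helper303_RG

open Finset hiding val
open Polynomial
open Pool.Agent.H595R2.PR (md pw strip)
open Pool.Agent.Helper303_RF (val redu cube smallC mem_cube cast_md cast_pm1 ev lowc lowc_length
  isRt_lowc smoothPart smoothPart_mem)

/-- a root is missing: in a field with `p ^ k` elements there is a root `θ` of `h` for which the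
value of `u` is `D r`, but `r` is not in the list of candidates -/
def BadK (h : ℤ[X]) (u : List ℤ) (D : ℤ) (k n L H p : ℕ) : Prop :=
  ∃ (κ : Type) (_ : Field κ) (_ : Fintype κ) (_ : CharP κ p), Fintype.card κ = p ^ k ∧
    (∀ θ : κ, h.eval₂ (Int.castRingHom κ) θ = 0 →
      ∀ a : κ, ∃ P : ℤ[X], P.eval₂ (Int.castRingHom κ) θ = a) ∧
    ∃ θ : κ, h.eval₂ (Int.castRingHom κ) θ = 0 ∧ ∃ r < p,
      evu h.natDegree θ u = (D : κ) * (r : κ) ∧ r ∉ rlist (lowc h) u D p (p ^ k - 1) n L H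

theorem bad_set {h : ℤ[X]} (hm : h.Monic) (hd : 0 < h.natDegree) {u : List ℤ} {D : ℤ}
    {k n L H H0 p : ℕ} (hp : p.Prime) (hk : 0 < k) (hD : ¬ (p : ℤ) ∣ D)
    (hn : p ^ k ≤ 2 ^ n)
    (hsep : (h.map (Int.castRingHom (ZMod p))).Separable)
    (hbad : BadK h u D k n L H p) (hH : H0 ≤ H)
    {S : Finset (Fin h.natDegree → ℤ)}
    (hS : ∀ v ∈ S, ∃ T : List (Fin h.natDegree → ℤ), (∀ a ∈ T, ∀ i, |a i| ≤ (H0 : ℤ)) ∧
        ∀ (κ : Type) [Field κ] [CharP κ p] (z : κ),
          h.eval₂ (Int.castRingHom κ) z = 0 →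
            val z v = (T.map (val z)).prod ∧ ∀ a ∈ T, val z a ≠ 0) :
    ∃ A : Finset (Fin h.natDegree → ZMod p), A.Nonempty ∧
      A.card * smoothPart L (p ^ k - 1) ≤ p ^ h.natDegree ∧ ∀ v ∈ S, redu p v ∈ A := by
  classical
  have := Fact.mk hp
  obtain ⟨κ, _, _, _, hcard, hgen, θ, hθ, r, hrp, hθr, hrb⟩ := hbad
  letI : Algebra (ZMod p) κ := ZMod.algebra κ p
  set M := p ^ k - 1 with hM
  have hpk : 1 < p ^ k := Nat.one_lt_pow hk.ne' hp.one_lt
  have hM0 : 0 < M := by omega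
  have hcardM : Fintype.card κ = M + 1 := by rw [hcard]; omega
  have hDκ : (D : κ) ≠ 0 := by
    intro h0
    exact hD ((CharP.intCast_eq_zero_iff κ p D).1 h0)
  obtain ⟨θ', hθ', hne, hU⟩ := exists_unsep hm hd hsep κ hcardM hM0 hθ hrp hDκ hθr hrb
  have hrt := (isRt_lowc hm (κ := κ)).2 hθ
  have hrt' := (isRt_lowc hm (κ := κ)).2 hθ'
  have hlen : (lowc h).length = h.natDegree := lowc_length h
  set G := GG (lowc h) p H θ θ' with hG
  have hMn : M < 2 ^ n := by omega
  have hgc := grp_card (S := smoothPart L M) hcardM (by rw [hlen]; exact hd) hM0 hrt hrt' hU hMn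
    (smoothPart_mem hM0).1 (smoothPart_mem hM0).2
  rw [← hG] at hgc
  -- all pairs of values are taken
  have hev : ∀ (z : κ) (P : ℤ[X]), aeval z (P.map (Int.castRingHom (ZMod p))) =
      P.eval₂ (Int.castRingHom κ) z := by
    intro z P
    rw [aeval_def, eval₂_map]
    congr 1
    exact RingHom.ext_int _ _
  have hgen2 : ∀ z : κ, h.eval₂ (Int.castRingHom κ) z = 0 →
      ∀ a : κ, ∃ P : (ZMod p)[X], aeval z P = a := by
    intro z hz a
    obtain ⟨P, hP⟩ := hgen z hz a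
    exact ⟨P.map (Int.castRingHom (ZMod p)), by rw [hev, hP]⟩
  set U : (ZMod p)[X] := ∑ j ∈ range h.natDegree, C ((u.getD j 0 : ℤ) : ZMod p) * X ^ j with hUd
  have hUev : ∀ z : κ, aeval z U = evu h.natDegree z u := by
    intro z
    rw [hUd, map_sum]
    unfold evu
    refine sum_congr rfl fun j _ => ?_
    rw [map_mul, aeval_C, map_pow, aeval_X, map_intCast]
  have hcst : algebraMap (ZMod p) κ ((D : ZMod p) * (r : ZMod p)) = (D : κ) * (r : κ) := by
    rw [map_mul, map_intCast, map_natCast]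
  have hint : ∀ z : κ, IsIntegral (ZMod p) z := fun z => by
    have : Finite κ := Finite.of_fintype κ
    have : Module.Finite (ZMod p) κ := Module.Finite.of_finite
    exact Algebra.IsIntegral.isIntegral z
  have hsurj := exists_vl hm hθ hθ' (hint θ) (hint θ') (hgen2 θ hθ) (hgen2 θ' hθ')
    (u := U) (c := (D : ZMod p) * (r : ZMod p)) (by rw [hUev, hcst, hθr])
    (by rw [hUev, hcst, ← hθr]; exact hne)
  have h1 := AA_card (p := p) hsurj G
  refine ⟨AA p h.natDegree θ θ' G, ?_, ?_, ?_⟩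
  · have h2 : 0 < Nat.card G * p ^ h.natDegree := by
      have : 0 < Nat.card G := Nat.card_pos
      have := hp.pos
      positivity
    rw [← h1] at h2
    exact card_pos.1 (Nat.pos_of_mul_pos_right h2)
  · have h2 : (AA p h.natDegree θ θ' G).card * smoothPart L M * (Fintype.card κ) ^ 2 ≤
        p ^ h.natDegree * (Fintype.card κ) ^ 2 := by
      calc _ = ((AA p h.natDegree θ θ' G).card * (Fintype.card κ) ^ 2) * smoothPart L M := by ring
        _ = (Nat.card G * smoothPart L M) * p ^ h.natDegree := by rw [h1]; ring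
        _ ≤ M ^ 2 * p ^ h.natDegree := Nat.mul_le_mul_right _ hgc
        _ ≤ (Fintype.card κ) ^ 2 * p ^ h.natDegree :=
            Nat.mul_le_mul_right _ (Nat.pow_le_pow_left (by omega) _)
        _ = _ := by ring
    exact Nat.le_of_mul_le_mul_right h2 (pow_pos (by omega) 2)
  · intro v hv
    obtain ⟨T, hT, hT2⟩ := hS v hv
    obtain ⟨e1, e2⟩ := hT2 κ θ hθ
    obtain ⟨e1', e2'⟩ := hT2 κ θ' hθ'
    have key : ∀ m : ℕ, ∀ hm : m = (lowc h).length, ∀ T : List (Fin m → ℤ),
        (∀ a ∈ T, ∀ i, |a i| ≤ (H : ℤ)) → (∀ a ∈ T, val θ a ≠ 0) →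
        (∀ a ∈ T, val θ' a ≠ 0) → ∃ g ∈ G, (g.1 : κ) = (T.map (val θ)).prod ∧
          (g.2 : κ) = (T.map (val θ')).prod := by
      rintro m rfl T h1 h2 h3
      exact prod_mem θ θ' T h1 h2 h3
    obtain ⟨g, hg, h1, h2⟩ := key _ hlen.symm T (fun a ha i => (hT a ha i).trans
      (by exact_mod_cast hH)) e2 e2'
    rw [mem_AA]
    exact ⟨g, hg, by rw [h1, vl_redu, e1], by rw [h2, vl_redu, e1']⟩

end Pool.Agent.Helper303_RG
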