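import Mathlib
import Pool.Agent.Helper303_RG.Bad
import Pool.Agent.Helper303_RF.Factor

/-!
# Primitive elements
-/

set_option autoImplicit false

namespace Pool.Agent.Helper303_RG

open Polynomial
open Pool.Agent.Helper303_RF (monic_factors lowc)

/-- the complex roots of an irreducible polynomial are distinct -/
theorem exists_roots {f : ℤ[X]} (hf : Irreducible f) (hd : 0 < f.natDegree) :
    ∃ A : Finset ℂ, A.card = f.natDegree ∧ ∀ a ∈ A, f.eval₂ (Int.castRingHom ℂ) a = 0 := by
  have hprim : f.IsPrimitive := hf.isPrimitive hd.ne'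
  have hF : Irreducible (f.map (Int.castRingHom ℚ)) :=
    (IsPrimitive.Int.irreducible_iff_irreducible_map_cast hprim).1 hf
  have hsep := hF.separable
  have hmap : (f.map (Int.castRingHom ℚ)).map (algebraMap ℚ ℂ) = f.map (Int.castRingHom ℂ) := by
    rw [Polynomial.map_map]
    congr 1
  have hsep2 : (f.map (Int.castRingHom ℂ)).Separable := hmap ▸ hsep.map
  have hinj : Function.Injective (Int.castRingHom ℂ) := Int.cast_injective
  refine ⟨(f.map (Int.castRingHom ℂ)).roots.toFinset, ?_, ?_⟩
  · rw [Multiset.toFinset_card_of_nodup (nodup_roots hsep2), IsAlgClosed.card_roots_eq_natDegree,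
      natDegree_map_eq_of_injective hinj]
  · intro a ha
    rw [Multiset.mem_toFinset, mem_roots hsep2.ne_zero, IsRoot.def, eval_map] at ha
    exact ha

/-- a combination with distinct values -/
theorem exists_comb (A B : Finset ℂ) : ∃ m : ℤ, Set.InjOn (fun z : ℂ × ℂ => z.1 + m * z.2)
    (A ×ˢ B : Finset (ℂ × ℂ)) := by
  classical
  set bad : Finset ℂ := ((A ×ˢ B) ×ˢ (A ×ˢ B)).image
    (fun w : (ℂ × ℂ) × (ℂ × ℂ) => (w.1.1 - w.2.1) / (w.2.2 - w.1.2)) with hbad
  have hfin : Set.Finite {m : ℤ | (m : ℂ) ∈ bad} :=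
    Set.Finite.preimage (Int.cast_injective.injOn) (Finset.finite_toSet bad)
  obtain ⟨m, hm⟩ := Infinite.exists_notMem_finset hfin.toFinset
  rw [Set.Finite.mem_toFinset, Set.mem_ofPred_eq] at hm
  refine ⟨m, ?_⟩
  rintro ⟨a, b⟩ h1 ⟨a', b'⟩ h2 h
  simp only at h
  by_cases hb : b' = b
  · subst hb
    have : a = a' := by linear_combination h
    rw [this]
  · exfalso
    apply hm
    rw [hbad, Finset.mem_image]
    refine ⟨((a, b), (a', b')), Finset.mem_product.2 ⟨h1, h2⟩, ?_⟩
    have : b' - b ≠ 0 := sub_ne_zero.2 hb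
    simp only
    rw [div_eq_iff this]
    linear_combination h

/-- a primitive element, and its minimal polynomial -/
theorem exists_prim {f g : ℤ[X]} (hf : Irreducible f) (hfm : f.Monic) (hfd : 0 < f.natDegree)
    (hg : Irreducible g) (hgm : g.Monic) (hgd : 0 < g.natDegree) :
    ∃ (m : ℤ) (F U V : ℤ[X]) (D : ℤ), F.Monic ∧ 0 < F.natDegree ∧ D ≠ 0 ∧
      F ∣ (Finset.range (g.natDegree + 1)).sum (fun j =>
        C (g.coeff j) * V ^ j * C D ^ (g.natDegree - j)) ∧
      ∀ (κ : Type) [Field κ] (a b : κ), f.eval₂ (Int.castRingHom κ) a = 0 →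
        g.eval₂ (Int.castRingHom κ) b = 0 →
        F.eval₂ (Int.castRingHom κ) (a + m * b) = 0 ∧
        U.eval₂ (Int.castRingHom κ) (a + m * b) = D * a := by
  classical
  set R1 := AdjoinRoot f with hR1
  set gR : R1[X] := g.map (algebraMap ℤ R1) with hgR
  have hgRm : gR.Monic := hgm.map _
  have hfdeg : f.degree ≠ 0 := (natDegree_pos_iff_degree_pos.1 hfd).ne'
  have : Nontrivial R1 := AdjoinRoot.nontrivial f hfdeg
  have hgRd : gR.natDegree = g.natDegree := hgm.natDegree_map _
  set S := AdjoinRoot gR with hS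
  set x : S := algebraMap R1 S (AdjoinRoot.root f) with hx
  set y : S := AdjoinRoot.root gR with hy
  let b1 : Module.Basis (Fin f.natDegree) ℤ R1 := (AdjoinRoot.powerBasis' hfm).basis
  let b2 : Module.Basis (Fin gR.natDegree) R1 S := (AdjoinRoot.powerBasis' hgRm).basis
  let b : Module.Basis (Fin f.natDegree × Fin gR.natDegree) ℤ S := b1.smulTower b2
  set N := f.natDegree * g.natDegree with hN
  have hN0 : 0 < N := Nat.mul_pos hfd hgd
  have hcard : Fintype.card (Fin f.natDegree × Fin gR.natDegree) = N := by
    rw [Fintype.card_prod, Fintype.card_fin, Fintype.card_fin, hgRd]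
  have : Module.Finite ℤ S := Module.Finite.of_basis b
  have : Module.Free ℤ S := Module.Free.of_basis b
  have hrank : Module.finrank ℤ S = N := by rw [Module.finrank_eq_card_basis b, hcard]
  -- evaluations
  have heval : ∀ (κ : Type) [Field κ] (α β : κ), f.eval₂ (Int.castRingHom κ) α = 0 →
      g.eval₂ (Int.castRingHom κ) β = 0 → ∃ φ : S →+* κ, φ x = α ∧ φ y = β := by
    intro κ _ α β hα hβ
    set φ1 : R1 →+* κ := AdjoinRoot.lift (Int.castRingHom κ) α hα with hφ1
    have h1 : gR.eval₂ φ1 β = 0 := by
      rw [hgR, eval₂_map]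
      have : φ1.comp (algebraMap ℤ R1) = Int.castRingHom κ := RingHom.ext_int _ _
      rw [this, hβ]
    refine ⟨AdjoinRoot.lift φ1 β h1, ?_, ?_⟩
    · rw [hx]
      have : algebraMap R1 S (AdjoinRoot.root f) = AdjoinRoot.of gR (AdjoinRoot.root f) := rfl
      rw [this, AdjoinRoot.lift_of, hφ1, AdjoinRoot.lift_root]
    · rw [hy, AdjoinRoot.lift_root]
  have hpoly : ∀ (κ : Type) [Field κ] (φ : S →+* κ) (P : ℤ[X]) (t : S),
      φ (aeval t P) = P.eval₂ (Int.castRingHom κ) (φ t) := by
    intro κ _ φ P t
    rw [aeval_def, hom_eval₂]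
    congr 1
    exact RingHom.ext_int _ _
  obtain ⟨A, hA1, hA2⟩ := exists_roots hf hfd
  obtain ⟨B, hB1, hB2⟩ := exists_roots hg hgd
  obtain ⟨m, hm⟩ := exists_comb A B
  set θ : S := x + (m : S) * y with hθ
  -- independence
  have hind : ∀ P : ℤ[X], P.natDegree < N → aeval θ P = 0 → P = 0 := by
    intro P hP h0
    have hinj : Function.Injective (Int.castRingHom ℂ) := Int.cast_injective
    rw [← Polynomial.map_eq_zero_iff hinj]
    apply Polynomial.eq_zero_of_natDegree_lt_card_of_eval_eq_zero' _
      ((A ×ˢ B).image fun z : ℂ × ℂ => z.1 + m * z.2)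
    · intro w hw
      obtain ⟨⟨α, β⟩, hz, rfl⟩ := Finset.mem_image.1 hw
      obtain ⟨hα, hβ⟩ := Finset.mem_product.1 hz
      obtain ⟨φ, e1, e2⟩ := heval ℂ α β (hA2 α hα) (hB2 β hβ)
      have h1 := hpoly ℂ φ P θ
      rw [h0, map_zero, hθ, map_add, map_mul, map_intCast, e1, e2] at h1
      rw [eval_map]
      exact h1.symm
    · rw [Finset.card_image_of_injOn hm, Finset.card_product, hA1, hB1]
      exact lt_of_le_of_lt natDegree_map_le hP
  -- relations
  have hrel : ∀ z : S, ∃ (d : ℤ) (P : ℤ[X]), d ≠ 0 ∧ aeval θ P = (d : S) * z := by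
    intro z
    have hnot : ¬ LinearIndependent ℤ (fun i : Option (Fin N) =>
        (Option.elim i z (fun j : Fin N => θ ^ (j : ℕ)) : S)) := by
      intro hli
      have := hli.fintype_card_le_finrank
      rw [hrank, Fintype.card_option, Fintype.card_fin] at this
      omega
    obtain ⟨c, hc, i, hi⟩ := Fintype.not_linearIndependent_iff.1 hnot
    rw [Fintype.sum_option] at hc
    simp only [Option.elim] at hc
    set P : ℤ[X] := ∑ j : Fin N, C (c (some j)) * X ^ (j : ℕ) with hP
    have haP : aeval θ P = ∑ j : Fin N, c (some j) • θ ^ (j : ℕ) := by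
      rw [hP, map_sum]
      refine Finset.sum_congr rfl fun j _ => ?_
      rw [map_mul, aeval_C, map_pow, aeval_X, Algebra.smul_def]
    refine ⟨c none, -P, ?_, ?_⟩
    · intro h0
      rw [h0, zero_smul, zero_add, ← haP] at hc
      have hdeg : P.natDegree < N := by
        have h1 : P.degree < (N : ℕ) := by
          rw [hP]
          apply (degree_sum_le _ _).trans_lt
          rw [Finset.sup_lt_iff (WithBot.bot_lt_coe _)]
          intro j _
          refine (degree_C_mul_X_pow_le _ _).trans_lt ?_
          exact_mod_cast j.isLt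
        rcases eq_or_ne P 0 with h | h
        · rw [h, natDegree_zero]
          exact hN0
        · exact (natDegree_lt_iff_degree_lt h).2 h1
      have hP0 := hind P hdeg hc
      apply hi
      cases i with
      | none => exact h0
      | some j =>
        have h2 : P.coeff j = c (some j) := by
          rw [hP, finsetSum_coeff, Finset.sum_eq_single j]
          · rw [coeff_C_mul, coeff_X_pow_self, mul_one]
          · intro j' _ hj'
            rw [coeff_C_mul, coeff_X_pow, if_neg (fun h => hj' (Fin.ext h.symm)), mul_zero]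
          · intro h
            exact absurd (Finset.mem_univ _) h
        rw [← h2, hP0, coeff_zero]
    · rw [map_neg, haP]
      have : (c none) • z = ((c none : ℤ) : S) * z := by rw [zsmul_eq_mul]
      rw [this] at hc
      linear_combination -hc
  obtain ⟨d1, U, hd1, hU⟩ := hrel x
  obtain ⟨d2, V, hd2, hV⟩ := hrel y
  set F : ℤ[X] := (Algebra.leftMulMatrix b θ).charpoly with hF
  have hFm : F.Monic := Matrix.charpoly_monic _
  have hFd : F.natDegree = N := by rw [hF, Matrix.charpoly_natDegree_eq_dim, hcard]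
  have hF0 : aeval θ F = 0 := by
    apply Algebra.leftMulMatrix_injective b
    rw [← Polynomial.aeval_algHom_apply, hF, Matrix.aeval_self_charpoly, map_zero]
  refine ⟨m, F, C d2 * U, C d1 * V, d1 * d2, hFm, by omega, mul_ne_zero hd1 hd2, ?_, ?_⟩
  · set G := (Finset.range (g.natDegree + 1)).sum (fun j =>
        C (g.coeff j) * (C d1 * V) ^ j * C (d1 * d2) ^ (g.natDegree - j)) with hG
    rw [← modByMonic_eq_zero_iff_dvd hFm]
    apply hind
    · rw [← hFd]
      apply natDegree_modByMonic_lt _ hFm
      rintro h1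
      rw [h1, natDegree_one] at hFd
      omega
    · have h1 : aeval θ G = 0 := by
        have h2 : ∀ j ∈ Finset.range (g.natDegree + 1),
            aeval θ (C (g.coeff j) * (C d1 * V) ^ j * C (d1 * d2) ^ (g.natDegree - j)) =
            ((d1 * d2 : ℤ) : S) ^ g.natDegree * (((g.coeff j : ℤ) : S) * y ^ j) := by
          intro j hj
          have hj' : j ≤ g.natDegree := by
            have := Finset.mem_range.1 hj
            omega
          have e1 : ∀ z : ℤ, aeval θ (C z) = ((z : ℤ) : S) := by
            intro z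
            rw [aeval_C]
            exact eq_intCast (algebraMap ℤ S) z
          rw [map_mul, map_mul, map_pow, map_pow, map_mul, e1, e1, e1, hV]
          have e2 : ((d1 * d2 : ℤ) : S) ^ g.natDegree =
              ((d1 * d2 : ℤ) : S) ^ j * ((d1 * d2 : ℤ) : S) ^ (g.natDegree - j) := by
            rw [← pow_add]
            congr 1
            omega
          have e3 : ((d1 * d2 : ℤ) : S) = (d1 : S) * (d2 : S) := Int.cast_mul d1 d2
          rw [e2, e3]
          ring
        rw [hG, map_sum, Finset.sum_congr rfl h2, ← Finset.mul_sum]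
        have h3 : ∑ j ∈ Finset.range (g.natDegree + 1), ((g.coeff j : ℤ) : S) * y ^ j = 0 := by
          have h4 : aeval y g = 0 := by
            have h5 : (g.map (algebraMap ℤ R1)).eval₂ (algebraMap R1 S) y = 0 :=
              AdjoinRoot.eval₂_root gR
            rw [eval₂_map] at h5
            rw [aeval_def]
            have : (algebraMap R1 S).comp (algebraMap ℤ R1) = algebraMap ℤ S :=
              RingHom.ext_int _ _
            rw [this] at h5
            exact h5
          rw [← h4, aeval_eq_sum_range]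
          refine Finset.sum_congr rfl fun j _ => ?_
          rw [zsmul_eq_mul]
        rw [h3, mul_zero]
      have h2 := modByMonic_add_div G F
      have h3 := congrArg (aeval θ) h2
      rw [map_add, map_mul, hF0, zero_mul, add_zero, h1] at h3
      exact h3
  · intro κ _ α β hα hβ
    obtain ⟨φ, e1, e2⟩ := heval κ α β hα hβ
    have hφθ : φ θ = α + m * β := by rw [hθ, map_add, map_mul, map_intCast, e1, e2]
    constructor
    · rw [← hφθ, ← hpoly, hF0, map_zero]
    · rw [← hφθ, ← hpoly, map_mul, hU, map_mul, map_mul, e1, aeval_C]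
      have : φ (algebraMap ℤ S d2) = (d2 : κ) := by
        rw [eq_intCast (algebraMap ℤ S) d2, map_intCast]
      rw [this, map_intCast]
      push_cast
      ring

end Pool.Agent.Helper303_RG
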