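import Mathlib
import Pool.Agent.Helper303_RG.Prim

/-!
# The finitely many auxiliary polynomials
-/

set_option autoImplicit false

namespace Pool.Agent.Helper303_RG

open Polynomial
open Pool.Agent.Helper303_RF (monic_factors lowc)

theorem evu_modByMonic {h U : ℤ[X]} (hm : h.Monic) (hd : 0 < h.natDegree) {κ : Type} [Field κ]
    {θ : κ} (hθ : h.eval₂ (Int.castRingHom κ) θ = 0) :
    evu h.natDegree θ ((List.range h.natDegree).map (U %ₘ h).coeff) =
      U.eval₂ (Int.castRingHom κ) θ := by
  have h1 : U.eval₂ (Int.castRingHom κ) θ = (U %ₘ h).eval₂ (Int.castRingHom κ) θ := by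
    conv_lhs => rw [← modByMonic_add_div U h]
    rw [eval₂_add, eval₂_mul, hθ, zero_mul, add_zero]
  have h2 : (U %ₘ h).natDegree < h.natDegree := by
    apply natDegree_modByMonic_lt _ hm
    rintro rfl
    simp at hd
  rw [h1, eval₂_eq_sum_range' _ h2]
  unfold evu
  refine Finset.sum_congr rfl fun k hk => ?_
  rw [List.getD_eq_getElem?_getD, List.getElem?_map, List.getElem?_range (Finset.mem_range.1 hk)]
  simp

theorem exists_entries {f g : ℤ[X]} (hf : Irreducible f) (hfm : f.Monic) (hfd : 0 < f.natDegree)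
    (hg : Irreducible g) (hgm : g.Monic) (hgd : 0 < g.natDegree) :
    ∃ (D : ℤ) (Es : List (ℤ[X] × List ℤ)), D ≠ 0 ∧
      (∀ e ∈ Es, Irreducible e.1 ∧ e.1.Monic ∧ 0 < e.1.natDegree) ∧
      ∀ p : ℕ, p.Prime → ¬ (p : ℤ) ∣ D → Irreducible (g.map (Int.castRingHom (ZMod p))) →
        ∀ r < p, f.eval₂ (Int.castRingHom (ZMod p)) (r : ZMod p) = 0 → ∃ e ∈ Es, ∀ n L H : ℕ,
          r ∉ rlist (lowc e.1) e.2 D p (p ^ g.natDegree - 1) n L H →
          BadK e.1 e.2 D g.natDegree n L H p := by
  classical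
  obtain ⟨m, F, U, V, D, hFm, hFd, hD, hdvd, hev⟩ := exists_prim hf hfm hfd hg hgm hgd
  obtain ⟨Hs, hHs, hF⟩ := monic_factors _ F hFm rfl
  refine ⟨D, Hs.map fun h => (h, (List.range h.natDegree).map (U %ₘ h).coeff), hD, ?_, ?_⟩
  · intro e he
    obtain ⟨h, hh, rfl⟩ := List.mem_map.1 he
    exact hHs h hh
  · intro p hp hpD hirr r hr hfr
    have := Fact.mk hp
    set gp := g.map (Int.castRingHom (ZMod p)) with hgp
    have : Fact (Irreducible gp) := ⟨hirr⟩
    have hgpm : gp.Monic := hgm.map _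
    have hgpd : gp.natDegree = g.natDegree := hgm.natDegree_map _
    have hchar : CharP (AdjoinRoot gp) p :=
      charP_of_injective_algebraMap (algebraMap (ZMod p) (AdjoinRoot gp)).injective p
    have hfin : Module.Finite (ZMod p) (AdjoinRoot gp) :=
      Module.Finite.of_basis (AdjoinRoot.powerBasis' hgpm).basis
    have hfinite : Finite (AdjoinRoot gp) := Module.finite_of_finite (ZMod p)
    let hft : Fintype (AdjoinRoot gp) := Fintype.ofFinite _
    have hcard : Fintype.card (AdjoinRoot gp) = p ^ g.natDegree := by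
      rw [Module.card_eq_pow_finrank (K := ZMod p) (V := AdjoinRoot gp), ZMod.card,
        Module.finrank_eq_card_basis (AdjoinRoot.powerBasis' hgpm).basis, Fintype.card_fin]
      change p ^ gp.natDegree = _
      rw [hgpd]
    have hmapf : ∀ (P : ℤ[X]) (t : ZMod p), P.eval₂ (Int.castRingHom (AdjoinRoot gp)) (algebraMap (ZMod p) (AdjoinRoot gp) t) =
        algebraMap (ZMod p) (AdjoinRoot gp) (P.eval₂ (Int.castRingHom (ZMod p)) t) := by
      intro P t
      rw [hom_eval₂]
      congr 1
    have ha : f.eval₂ (Int.castRingHom (AdjoinRoot gp)) (r : (AdjoinRoot gp)) = 0 := by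
      have := hmapf f (r : ZMod p)
      rw [hfr, map_zero, map_natCast] at this
      exact this
    have hroot : ∀ (P : ℤ[X]) (t : (AdjoinRoot gp)), P.eval₂ (Int.castRingHom (AdjoinRoot gp)) t =
        (P.map (Int.castRingHom (ZMod p))).eval₂ (algebraMap (ZMod p) (AdjoinRoot gp)) t := by
      intro P t
      rw [eval₂_map]
      congr 1
    have hb : g.eval₂ (Int.castRingHom (AdjoinRoot gp)) (AdjoinRoot.root gp) = 0 := by
      rw [hroot]
      exact AdjoinRoot.eval₂_root gp
    obtain ⟨e1, e2⟩ := hev (AdjoinRoot gp) (r : (AdjoinRoot gp)) (AdjoinRoot.root gp) ha hb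
    set θ : (AdjoinRoot gp) := (r : (AdjoinRoot gp)) + m * AdjoinRoot.root gp with hθ
    rw [hF, ← coe_eval₂RingHom, map_list_prod] at e1
    obtain ⟨h, hh, h4⟩ := List.mem_map.1 (List.prod_eq_zero_iff.1 e1)
    rw [coe_eval₂RingHom] at h4
    obtain ⟨hi, hm, hd⟩ := hHs h hh
    refine ⟨_, List.mem_map.2 ⟨h, hh, rfl⟩, fun n L H hnot => ?_⟩
    refine ⟨(AdjoinRoot gp), inferInstance, hft, hchar, hcard, ?_, θ, h4, r, hr, ?_, hnot⟩
    · intro θ' hθ' a
      have hDk : (D : (AdjoinRoot gp)) ≠ 0 := by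
        intro h0
        exact hpD ((CharP.intCast_eq_zero_iff (AdjoinRoot gp) p D).1 h0)
      set y' : (AdjoinRoot gp) := V.eval₂ (Int.castRingHom (AdjoinRoot gp)) θ' / D with hy'
      -- `y'` is a root of `g`
      have hg' : g.eval₂ (Int.castRingHom (AdjoinRoot gp)) y' = 0 := by
        have h5 : h ∣ (Finset.range (g.natDegree + 1)).sum (fun j =>
            C (g.coeff j) * V ^ j * C D ^ (g.natDegree - j)) :=
          dvd_trans (hF ▸ List.dvd_prod hh) hdvd
        obtain ⟨Q, hQ⟩ := h5
        have h6 := congrArg (eval₂ (Int.castRingHom (AdjoinRoot gp)) θ') hQ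
        rw [eval₂_mul, hθ', zero_mul, eval₂_finsetSum] at h6
        have h7 : ∀ j ∈ Finset.range (g.natDegree + 1), eval₂ (Int.castRingHom (AdjoinRoot gp)) θ'
            (C (g.coeff j) * V ^ j * C D ^ (g.natDegree - j)) =
            (D : (AdjoinRoot gp)) ^ g.natDegree * (((g.coeff j : ℤ) : (AdjoinRoot gp)) * y' ^ j) := by
          intro j hj
          have hj' : j ≤ g.natDegree := by
            have := Finset.mem_range.1 hj
            omega
          rw [eval₂_mul, eval₂_mul, eval₂_pow, eval₂_pow, eval₂_C, eval₂_C, hy', div_pow]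
          have e2 : (D : (AdjoinRoot gp)) ^ g.natDegree = (D : (AdjoinRoot gp)) ^ j * (D : (AdjoinRoot gp)) ^ (g.natDegree - j) := by
            rw [← pow_add]
            congr 1
            omega
          rw [e2]
          simp only [eq_intCast]
          field_simp
        rw [Finset.sum_congr rfl h7, ← Finset.mul_sum] at h6
        have h8 := (mul_eq_zero.1 h6).resolve_left (pow_ne_zero _ hDk)
        rw [eval₂_eq_sum_range]
        exact h8
      -- the field is generated by `y'`
      have hg'' : gp.eval₂ (algebraMap (ZMod p) (AdjoinRoot gp)) y' = 0 := by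
        rw [← hroot]
        exact hg'
      have hsurj : Function.Surjective (AdjoinRoot.lift (algebraMap (ZMod p) (AdjoinRoot gp)) y' hg'') :=
        Finite.surjective_of_injective (RingHom.injective _)
      obtain ⟨w, hw⟩ := hsurj a
      obtain ⟨P0, hP0⟩ := AdjoinRoot.mk_surjective w
      obtain ⟨P1, hP1⟩ := Polynomial.map_surjective (Int.castRingHom (ZMod p))
        (ZMod.ringHom_surjective _) P0
      obtain ⟨D', hD'⟩ : ∃ D' : ℤ, (D' : (AdjoinRoot gp)) = (D : (AdjoinRoot gp))⁻¹ := by
        refine ⟨(((D : ZMod p)⁻¹).val : ℤ), ?_⟩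
        have h9 : (((((D : ZMod p)⁻¹).val : ℤ)) : AdjoinRoot gp) =
            algebraMap (ZMod p) (AdjoinRoot gp) ((((D : ZMod p)⁻¹).val : ℕ) : ZMod p) := by
          rw [map_natCast]
          push_cast
          rfl
        rw [h9, ZMod.natCast_zmod_val, map_inv₀, map_intCast]
      refine ⟨P1.comp (C D' * V), ?_⟩
      rw [eval₂_comp, eval₂_mul, eval₂_C, eq_intCast, hD']
      have h10 : (D : (AdjoinRoot gp))⁻¹ * V.eval₂ (Int.castRingHom (AdjoinRoot gp)) θ' = y' := by
        rw [hy', div_eq_mul_inv, mul_comm]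
      rw [h10, hroot, hP1, ← hw, ← hP0, AdjoinRoot.lift_mk]
    · change evu h.natDegree θ ((List.range h.natDegree).map (U %ₘ h).coeff) = _
      rw [evu_modByMonic hm hd h4]
      exact e2

end Pool.Agent.Helper303_RG
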