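import Mathlib
import Pool.Agent.Helper303_RF.Smooth

/-!
# Many products of small elements, for every size
-/

set_option autoImplicit false

namespace Pool.Agent.Helper303_RG

open Finset Filter Polynomial Module
open Pool.Agent.H474R2.PG (rho)
open Pool.Agent.Helper303_RF (val bas evR evR_eq exists_alpha prod_bound Ps prod_inj dvd_normR)

theorem norm_dvd_of_zero' {R : Type} [CommRing R] {n : ℕ} (b : Basis (Fin n) ℤ R) {p : ℕ}
    {κ : Type} [Field κ] [CharP κ p] (φ : R →+* κ) {x : R} (hx : φ x = 0) :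
    (p : ℤ) ∣ Algebra.norm ℤ x := by
  obtain ⟨y, hy⟩ := dvd_normR b x
  rw [← CharP.intCast_eq_zero_iff κ p, ← map_intCast φ, hy, map_mul, hx, zero_mul]

theorem smooth_gen {f : ℤ[X]} (hf : Irreducible f) (hm : f.Monic) (hd : 0 < f.natDegree) :
    ∃ C CR : ℕ, 0 < CR ∧ ∀ H k : ℕ, ∃ S : Finset (Fin f.natDegree → ℤ),
      (∀ v ∈ S, ∀ i, |v i| ≤ ((CR ^ (k + 1) * H ^ k : ℕ) : ℤ)) ∧
      S.card = (Ps f C (H ^ f.natDegree)).card.choose k ∧
      ∀ v ∈ S, ∃ T : List (Fin f.natDegree → ℤ), (∀ a ∈ T, ∀ i, |a i| ≤ (H : ℤ)) ∧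
        ∀ p : ℕ, p.Prime → C * H ^ f.natDegree < p → ∀ (κ : Type) [Field κ] [CharP κ p] (z : κ),
          f.eval₂ (Int.castRingHom κ) z = 0 →
            val z v = (T.map (val z)).prod ∧ ∀ a ∈ T, val z a ≠ 0 := by
  classical
  set n := f.natDegree with hn
  have : IsDomain (AdjoinRoot f) := AdjoinRoot.isDomain_of_prime hf.prime
  set b := bas f hm with hb
  obtain ⟨C, hC⟩ := exists_alpha b hd
  obtain ⟨CR, hCR, hprod⟩ := prod_bound b
  refine ⟨C, CR, hCR, fun H k => ?_⟩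
  set P := Ps f C (H ^ n) with hP
  have hP' : ∀ q ∈ P, q.Prime ∧ C < q ∧ q ≤ H ^ n ∧ 0 < rho f q := by
    intro q hq
    obtain ⟨h1, h2, h3, h4⟩ := mem_filter.1 hq
    exact ⟨h2, h3, by have := mem_range.1 h1; omega, h4⟩
  have hα : ∀ q ∈ P, ∃ x : AdjoinRoot f, ∃ e : ℤ, (∀ i, |b.repr x i| ≤ (H : ℤ)) ∧
      Algebra.norm ℤ x = q * e ∧ e ≠ 0 ∧ |e| ≤ C := by
    intro q hq
    obtain ⟨h1, h2, h3, h4⟩ := hP' q hq
    unfold rho at h4
    obtain ⟨a, ha⟩ := card_pos.1 h4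
    obtain ⟨-, ha2⟩ := mem_filter.1 ha
    have h5 : f.eval₂ (Int.castRingHom (ZMod q)) (a : ZMod q) = 0 := by
      have h6 : ((f.eval (a : ℤ) : ℤ) : ZMod q) = 0 :=
        (ZMod.intCast_zmod_eq_zero_iff_dvd _ _).2 ha2
      rw [← Int.cast_natCast, eval₂_at_intCast]
      simpa using h6
    obtain ⟨x, hx, e, he⟩ := hC q h1 (evR f _ h5) H h3
    exact ⟨x, e, hx, he⟩
  choose! α e hα1 hα2 hα3 hα4 using hα
  have hinj := prod_inj (R := AdjoinRoot f) (C := C) (P := P)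
    (fun q hq => ⟨(hP' q hq).1, (hP' q hq).2.1⟩) hα2 (fun q hq => ⟨hα3 q hq, hα4 q hq⟩)
  refine ⟨(P.powersetCard k).image fun T => b.equivFun (∏ q ∈ T, α q), ?_, ?_, ?_⟩
  · intro v hv i
    obtain ⟨T, hT, rfl⟩ := mem_image.1 hv
    obtain ⟨hT1, hT2⟩ := mem_powersetCard.1 hT
    have h1 := hprod T α H (fun q hq => hα1 q (hT1 hq)) i
    rw [hT2] at h1
    rw [Basis.equivFun_apply]
    exact h1
  · rw [card_image_of_injOn, card_powersetCard]
    intro T hT T' hT' h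
    exact hinj (mem_powersetCard.1 hT).1 (mem_powersetCard.1 hT').1 (b.equivFun.injective h)
  · intro v hv
    obtain ⟨T, hT, rfl⟩ := mem_image.1 hv
    obtain ⟨hT1, hT2⟩ := mem_powersetCard.1 hT
    refine ⟨T.toList.map fun q => b.equivFun (α q), ?_, ?_⟩
    · intro a ha i
      obtain ⟨q, hq, rfl⟩ := List.mem_map.1 ha
      rw [Basis.equivFun_apply]
      exact hα1 q (hT1 (mem_toList.1 hq)) i
    · intro p hp hpC κ _ _ z hz
      refine ⟨?_, ?_⟩
      · rw [← evR_eq f hm z hz, map_prod, List.map_map, ← Finset.prod_map_toList]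
        congr 1
        refine List.map_congr_left fun q _ => ?_
        rw [Function.comp_apply, evR_eq f hm z hz]
      · intro a ha
        obtain ⟨q, hq, rfl⟩ := List.mem_map.1 ha
        have hqP := hT1 (mem_toList.1 hq)
        rw [← evR_eq f hm z hz]
        intro h0
        have h1 : (p : ℤ) ∣ Algebra.norm ℤ (α q) := norm_dvd_of_zero' b (evR f z hz) h0
        rw [hα2 q hqP] at h1
        obtain ⟨h2, h3, h4, -⟩ := hP' q hqP
        have h5 : (q : ℤ) * e q ≠ 0 := mul_ne_zero (by exact_mod_cast h2.ne_zero) (hα3 q hqP)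
        have h6 := Int.le_of_dvd (abs_pos.2 h5) ((dvd_abs _ _).2 h1)
        rw [abs_mul, abs_of_nonneg (by positivity : (0 : ℤ) ≤ q)] at h6
        have h7 : (q : ℤ) * |e q| ≤ (H ^ n : ℕ) * C := by
          apply mul_le_mul (by exact_mod_cast h4) (hα4 q hqP) (abs_nonneg _) (by positivity)
        have h8 : ((C * H ^ n : ℕ) : ℤ) < p := by exact_mod_cast hpC
        push_cast at h7 h8
        linarith

end Pool.Agent.Helper303_RG
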