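import Mathlib
import Pool.Agent.Helper303_RG.Bad
import Pool.Agent.Helper303_RG.Smooth
import Pool.Agent.Helper303_RF.Sieve2

/-!
# The exceptional primes
-/

set_option autoImplicit false

namespace Pool.Agent.Helper303_RG

open Finset hiding val box
open Filter Polynomial
open Pool.Agent.Helper303_RF (val redu smoothPart smoothPart_mem smoothPart_le smoothPart_mono
  two_le_smoothPart sieve box Ps many_primes count_lower sep_mod)

theorem smooth_set {f : ℤ[X]} (hf : Irreducible f) (hm : f.Monic) (hd : 0 < f.natDegree) {δ : ℝ}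
    (hδ0 : 0 < δ) (hδ1 : δ < 1) :
    ∃ C1 C0 : ℕ, 0 < C1 ∧ ∀ᶠ l : ℕ in atTop, ∃ S : Finset (Fin f.natDegree → ℤ),
      (∀ v ∈ S, ∀ i, |v i| ≤ 2 ^ l) ∧
      (2 : ℝ) ^ (((f.natDegree : ℝ) - δ) * (l + 1)) ≤ S.card ∧
      ∀ v ∈ S, ∃ T : List (Fin f.natDegree → ℤ), (∀ a ∈ T, ∀ i, |a i| ≤ ((l ^ C1 : ℕ) : ℤ)) ∧
        ∀ p : ℕ, p.Prime → C0 * (l ^ C1) ^ f.natDegree < p →
          ∀ (κ : Type) [Field κ] [CharP κ p] (z : κ), f.eval₂ (Int.castRingHom κ) z = 0 →
            val z v = (T.map (val z)).prod ∧ ∀ a ∈ T, val z a ≠ 0 := by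
  set n := f.natDegree with hn
  obtain ⟨C, CR, hCR, hS⟩ := smooth_gen hf hm hd
  obtain ⟨C1, hC1, hcount⟩ := count_lower hd hδ0 hδ1.le (fun Y => (Ps f C Y).card)
    (fun η hη => many_primes f hf hm hd C hη) CR hCR
  refine ⟨C1, C, hC1, ?_⟩
  filter_upwards [hcount, eventually_ge_atTop 1] with l hl hl1
  obtain ⟨k, hk1, hk2⟩ := hl
  have hH0 : 0 < l ^ C1 := pow_pos (by omega) _
  obtain ⟨S, hS1, hS2, hS3⟩ := hS (l ^ C1) k
  refine ⟨S, ?_, ?_, hS3⟩
  · intro v hv i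
    refine (hS1 v hv i).trans ?_
    have h2 : CR ^ (k + 1) * (l ^ C1) ^ k ≤ 2 ^ l := by
      refine le_trans ?_ hk1
      rw [mul_pow]
      exact Nat.mul_le_mul_left _ (Nat.pow_le_pow_right hH0 (by omega))
    exact_mod_cast h2
  · rw [hS2]
    have hn1 : (1 : ℝ) ≤ n := by exact_mod_cast hd
    have hl2 : 0 < Real.log 2 := Real.log_pos (by norm_num)
    have h1 : 0 < ((n : ℝ) - δ) * ((l + 1) * Real.log 2) := by
      have : 0 < (n : ℝ) - δ := by linarith
      positivity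
    change ((n : ℝ) - δ) * ((l + 1) * Real.log 2) ≤
      Real.log ((Ps f C ((l ^ C1) ^ n)).card.choose k) at hk2
    have h2 : (((Ps f C ((l ^ C1) ^ n)).card.choose k : ℕ) : ℝ) ≠ 0 := by
      intro h0
      rw [h0, Real.log_zero] at hk2
      linarith
    have h3 : (0 : ℝ) < (((Ps f C ((l ^ C1) ^ n)).card.choose k : ℕ) : ℝ) :=
      lt_of_le_of_ne (by positivity) h2.symm
    rw [← Real.log_le_log_iff (by positivity) h3, Real.log_rpow (by norm_num)]
    calc ((n : ℝ) - δ) * (l + 1) * Real.log 2 = ((n : ℝ) - δ) * ((l + 1) * Real.log 2) := by ring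
      _ ≤ _ := hk2

theorem tendsto_size : Tendsto (fun p : ℕ => p.size) atTop atTop := by
  rw [tendsto_atTop]
  intro b
  filter_upwards [eventually_ge_atTop (2 ^ b)] with p hp
  by_contra hcon
  push Not at hcon
  have := Nat.lt_size_self p
  have h2 : 2 ^ p.size ≤ 2 ^ b := Nat.pow_le_pow_right (by norm_num) hcon.le
  omega

theorem size_pred_le {p : ℕ} (hp : 0 < p) : 2 ^ (p.size - 1) ≤ p := by
  rw [← Nat.lt_size]
  have : 0 < p.size := Nat.size_pos.2 hp
  omega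

/-- powers of the size are small -/
theorem size_pow_lt (C0 K m : ℕ) : ∀ᶠ p : ℕ in atTop, C0 * (K * p.size) ^ m < p := by
  have h1 : ∀ᶠ s : ℕ in atTop, C0 * (K * s) ^ m < 2 ^ (s - 1) := by
    set c : ℝ := 1 / (2 * (C0 * K ^ m + 1)) with hc
    have hc0 : 0 < c := by positivity
    have h2 := (tendsto_pow_const_div_const_pow_of_one_lt m (one_lt_two (α := ℝ))).eventually
      (gt_mem_nhds hc0)
    filter_upwards [h2, eventually_ge_atTop 1] with s h3 h4
    have h5 : (0 : ℝ) < 2 ^ s := by positivity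
    rw [div_lt_iff₀ h5] at h3
    have h6 : (2 : ℝ) ^ s = 2 * 2 ^ (s - 1) := by
      rw [← pow_succ']
      congr 1
      omega
    have h7 : ((C0 * (K * s) ^ m : ℕ) : ℝ) < ((2 ^ (s - 1) : ℕ) : ℝ) := by
      push_cast
      calc (C0 : ℝ) * (K * s) ^ m = (C0 * K ^ m) * (s : ℝ) ^ m := by
            rw [mul_pow]
            ring
        _ ≤ (C0 * K ^ m + 1) * (s : ℝ) ^ m := by
            gcongr
            linarith
        _ < (C0 * K ^ m + 1) * (c * 2 ^ s) := by gcongr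
        _ = 2 ^ (s - 1) := by
            rw [hc, h6]
            field_simp
    exact_mod_cast h7
  filter_upwards [tendsto_size.eventually h1, eventually_ge_atTop 1] with p hp hp1
  have h2 := size_pred_le (p := p) (by omega)
  omega

open Classical in
theorem mono {h : ℤ[X]} (hf : Irreducible h) (hm : h.Monic) (hd : 0 < h.natDegree) (u : List ℤ)
    {D : ℤ} (hD0 : D ≠ 0) {k : ℕ} (hk : 0 < k) {B : ℕ} (hB : 0 < B) {ε : ℝ} (hε : 0 < ε) :
    ∃ C P1 : ℕ, ∀ x : ℕ,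
      ∑ p ∈ (range (x + 1)).filter (fun p => p.Prime ∧ P1 < p ∧
        BadK h u D k (k * p.size) (p.size ^ B) (p.size ^ C) p),
        (smoothPart (p.size ^ B) (p ^ k - 1) : ℝ) ≤ (x : ℝ) ^ ε := by
  set n := h.natDegree with hn
  set δ : ℝ := min (1 / 6) (ε / 6) with hδ
  have hδ0 : 0 < δ := lt_min (by norm_num) (by positivity)
  have hδ1 : δ ≤ 1 / 6 := min_le_left _ _
  have hδ2 : δ ≤ ε / 6 := min_le_right _ _
  obtain ⟨K, hK⟩ := exists_nat_ge (2 * (k + 1) / ε + 1)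
  have hK0 : (0 : ℝ) < K := by
    have : 0 < 2 * ((k : ℝ) + 1) / ε := by positivity
    linarith
  have hKε : ((k : ℝ) + 1) * (1 / (K : ℝ)) ≤ ε / 2 := by
    have h1 : 2 * ((k : ℝ) + 1) / ε ≤ K := by linarith
    rw [div_le_iff₀ hε] at h1
    rw [mul_one_div, div_le_iff₀ hK0]
    linarith
  have hKn : 0 < K := by exact_mod_cast hK0
  obtain ⟨C1, C0, hC1, hS⟩ := smooth_set hf hm hd hδ0 (by linarith)
  obtain ⟨D', hD'⟩ := sep_mod hf hd
  -- conditions on `p`
  have c1 : ∀ᶠ p : ℕ in atTop, D' < p := eventually_gt_atTop D'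
  have c1' : ∀ᶠ p : ℕ in atTop, D.natAbs < p := eventually_gt_atTop _
  have c2 : ∀ᶠ p : ℕ in atTop, 3 * K ≤ p.size := tendsto_size.eventually_ge_atTop _
  have c3 : ∀ᶠ p : ℕ in atTop, C0 * ((3 * K * p.size) ^ C1) ^ n < p := by
    filter_upwards [size_pow_lt C0 (3 * K) (C1 * n)] with p hp
    rwa [← pow_mul]
  -- conditions on `x`
  have d1 := (tendsto_atTop_mono (fun x => by omega) tendsto_size :
    Tendsto (fun x : ℕ => 3 * x.size) atTop atTop).eventually hS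
  have d2 : ∀ᶠ x : ℕ in atTop, 6 * n + 2 ≤ x.size := tendsto_size.eventually_ge_atTop _
  have d3 : ∀ᶠ x : ℕ in atTop, (1 + 2 ^ (2 * n + 4) : ℝ) ≤ (x : ℝ) ^ (ε / 2) :=
    ((tendsto_rpow_atTop (by positivity)).comp tendsto_natCast_atTop_atTop).eventually_ge_atTop _
  obtain ⟨P1, hP1⟩ := eventually_atTop.1 (c1.and (c1'.and (c2.and (c3.and (d1.and (d2.and
    (d3.and (eventually_gt_atTop 2))))))))
  refine ⟨2 * C1, P1, fun x => ?_⟩
  rcases lt_or_ge x P1 with hx | hx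
  · rw [filter_false_of_mem, sum_empty]
    · positivity
    · rintro p hp ⟨_, h2, _⟩
      have := mem_range.1 hp
      omega
  obtain ⟨-, -, -, -, ⟨S, hS1, hS2, hS3⟩, hx2, hx3, hx4⟩ := hP1 x hx
  set s := x.size with hs
  set M : ℕ → ℕ := fun p => smoothPart (p.size ^ B) (p ^ k - 1) with hM
  set E := (range (x + 1)).filter (fun p => p.Prime ∧ P1 < p ∧
    BadK h u D k (k * p.size) (p.size ^ B) (p.size ^ (2 * C1)) p) with hE
  have hEm : ∀ p ∈ E, p ≤ x ∧ p.Prime ∧ P1 < p ∧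
      BadK h u D k (k * p.size) (p.size ^ B) (p.size ^ (2 * C1)) p := by
    intro p hp
    obtain ⟨h1, h2⟩ := mem_filter.1 hp
    exact ⟨by have := mem_range.1 h1; omega, h2⟩
  have hx1 : (1 : ℝ) ≤ x := by
    have : 1 ≤ x := by omega
    exact_mod_cast this
  have hx0 : (0 : ℝ) < x := by linarith
  have hpk : ∀ p : ℕ, p.Prime → 1 < p ^ k := fun p hp => Nat.one_lt_pow hk.ne' hp.one_lt
  -- small primes
  have hsmall : ∑ p ∈ E.filter (fun p => p ^ K ≤ x), (M p : ℝ) ≤ (x : ℝ) ^ (ε / 2) := by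
    set m : ℝ := (x : ℝ) ^ (1 / (K : ℝ)) with hm'
    have hm0 : 0 ≤ m := by positivity
    have h1 : ∀ p ∈ E.filter (fun p => p ^ K ≤ x), (p : ℝ) ≤ m := by
      intro p hp
      have h2 : ((p : ℝ)) ^ K ≤ x := by exact_mod_cast (mem_filter.1 hp).2
      calc (p : ℝ) = ((p : ℝ) ^ K) ^ (1 / (K : ℝ)) := by
            rw [← Real.rpow_natCast, ← Real.rpow_mul (by positivity), mul_one_div,
              div_self hK0.ne', Real.rpow_one]
        _ ≤ m := Real.rpow_le_rpow (by positivity) h2 (by positivity)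
    have h2 : ((E.filter (fun p => p ^ K ≤ x)).card : ℝ) ≤ m := by
      have h3 : E.filter (fun p => p ^ K ≤ x) ⊆ Icc 1 ⌊m⌋₊ := by
        intro p hp
        rw [mem_Icc]
        exact ⟨(hEm p (mem_filter.1 hp).1).2.1.one_lt.le, Nat.le_floor (h1 p hp)⟩
      have h4 := card_le_card h3
      rw [Nat.card_Icc, Nat.add_sub_cancel] at h4
      exact le_trans (by exact_mod_cast h4) (Nat.floor_le hm0)
    calc ∑ p ∈ E.filter (fun p => p ^ K ≤ x), (M p : ℝ)
        ≤ ∑ p ∈ E.filter (fun p => p ^ K ≤ x), m ^ k := by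
          refine sum_le_sum fun p hp => ?_
          have h5 := hpk p (hEm p (mem_filter.1 hp).1).2.1
          have h6 := smoothPart_le (p.size ^ B) (show 0 < p ^ k - 1 by omega)
          have h7 : M p ≤ p ^ k := h6.trans (Nat.sub_le _ _)
          calc (M p : ℝ) ≤ (p : ℝ) ^ k := by exact_mod_cast h7
            _ ≤ m ^ k := by
                have := h1 p hp
                gcongr
      _ = (E.filter (fun p => p ^ K ≤ x)).card * m ^ k := by rw [sum_const, nsmul_eq_mul]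
      _ ≤ m * m ^ k := by gcongr
      _ = (x : ℝ) ^ (((k : ℝ) + 1) * (1 / (K : ℝ))) := by
          rw [← pow_succ', hm', ← Real.rpow_natCast, ← Real.rpow_mul hx0.le]
          congr 1
          push_cast
          ring
      _ ≤ (x : ℝ) ^ (ε / 2) := Real.rpow_le_rpow_of_exponent_le hx1 hKε
  -- large primes
  set E2 := E.filter (fun p => ¬ p ^ K ≤ x) with hE2
  have hset : ∀ p ∈ E2, ∃ A : Finset (Fin n → ZMod p), A.Nonempty ∧
      A.card * M p ≤ p ^ n ∧ ∀ v ∈ S, redu p v ∈ A := by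
    intro p hp
    obtain ⟨h1, h2⟩ := mem_filter.1 hp
    obtain ⟨h3, h4, h5, h6⟩ := hEm p h1
    obtain ⟨e1, e1', e2, e3, -, -, -, e7⟩ := hP1 p h5.le
    have h7 : s ≤ K * p.size := by
      rw [hs, Nat.size_le]
      push Not at h2
      calc x < p ^ K := h2
        _ ≤ (2 ^ p.size) ^ K := Nat.pow_le_pow_left (Nat.lt_size_self p).le _
        _ = 2 ^ (K * p.size) := by rw [← pow_mul, mul_comm]
    have h8 : (3 * s) ^ C1 ≤ (3 * K * p.size) ^ C1 := Nat.pow_le_pow_left (by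
      calc 3 * s ≤ 3 * (K * p.size) := by omega
        _ = 3 * K * p.size := by ring) _
    have h9 : C0 * ((3 * s) ^ C1) ^ n < p :=
      lt_of_le_of_lt (Nat.mul_le_mul_left _ (Nat.pow_le_pow_left h8 _)) e3
    refine bad_set hm hd h4 hk ?_ ?_ (hD' p h4 e1) h6 (H0 := (3 * s) ^ C1) ?_ ?_
    · intro hdvd
      have := Int.natAbs_dvd_natAbs.2 hdvd
      rw [Int.natAbs_natCast] at this
      have := Nat.le_of_dvd (Int.natAbs_pos.2 hD0) this
      omega
    · calc p ^ k ≤ (2 ^ p.size) ^ k := Nat.pow_le_pow_left (Nat.lt_size_self p).le _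
        _ = 2 ^ (k * p.size) := by rw [← pow_mul, mul_comm]
    · refine h8.trans ?_
      rw [pow_mul]
      refine Nat.pow_le_pow_left ?_ _
      rw [sq]
      exact Nat.mul_le_mul_right _ e2
    · intro v hv
      obtain ⟨T, hT1, hT2⟩ := hS3 v hv
      exact ⟨T, hT1, fun κ _ _ z hz => hT2 p h4 h9 κ z hz⟩
  choose! A hA1 hA2 hA3 using hset
  set DD : ℕ → ℝ := fun p => (p : ℝ) ^ n / ((A p).card : ℝ) with hDD
  have hEp : ∀ p ∈ E2, p.Prime ∧ p ≤ x ∧ 2 < p := by
    intro p hp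
    obtain ⟨h1, h2⟩ := mem_filter.1 hp
    obtain ⟨h3, h4, h5, h6⟩ := hEm p h1
    exact ⟨h4, h3, (hP1 p h5.le).2.2.2.2.2.2.2⟩
  have hM2 : ∀ p ∈ E2, 2 ≤ M p := by
    intro p hp
    obtain ⟨h1, h2, h3⟩ := hEp p hp
    have h5 := hpk p h1
    apply two_le_smoothPart (by omega)
    · have : 2 ≤ p.size := by
        by_contra hcon
        have h4 : p.size ≤ 1 := by omega
        rw [Nat.size_le] at h4
        omega
      calc 2 ≤ p.size := this
        _ = p.size ^ 1 := (pow_one _).symm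
        _ ≤ p.size ^ B := Nat.pow_le_pow_right (by omega) hB
    · have h6 : Odd p := h1.odd_of_ne_two (by omega)
      have h7 : Odd (p ^ k) := h6.pow
      obtain ⟨j, hj⟩ := h7
      exact ⟨j, by omega⟩
  have hcardpos : ∀ p ∈ E2, (0 : ℝ) < (A p).card := fun p hp => by
    exact_mod_cast card_pos.2 (hA1 p hp)
  have hMD : ∀ p ∈ E2, (M p : ℝ) ≤ DD p := by
    intro p hp
    simp only [hDD]
    rw [le_div_iff₀ (hcardpos p hp), mul_comm]
    exact_mod_cast hA2 p hp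
  have hDD2 : ∀ p ∈ E2, 2 ≤ DD p := fun p hp =>
    le_trans (by exact_mod_cast hM2 p hp) (hMD p hp)
  set N := 2 ^ (3 * s + 1) + 1 with hN
  have hNle : N ≤ 2 ^ (3 * s + 2) := by
    rw [hN, pow_succ 2 (3 * s + 1)]
    have : 1 ≤ 2 ^ (3 * s + 1) := Nat.one_le_two_pow
    omega
  have hxs : x < 2 ^ s := Nat.lt_size_self x
  have hn1 : (1 : ℝ) ≤ n := by exact_mod_cast hd
  have hs6 : (6 * n + 2 : ℝ) ≤ s := by exact_mod_cast hx2
  have hsieve := sieve hd E2 x N (-(2 ^ (3 * s) : ℤ)) (fun p hp => ⟨(hEp p hp).1, (hEp p hp).2.1⟩)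
    (by
      calc x ^ 2 ≤ (2 ^ s) ^ 2 := Nat.pow_le_pow_left hxs.le _
        _ = 2 ^ (s * 2) := by rw [← pow_mul]
        _ ≤ 2 ^ (3 * s + 1) := Nat.pow_le_pow_right (by norm_num) (by omega)
        _ ≤ N := by omega)
    A DD (fun p hp => ⟨hDD2 p hp, by
      simp only [hDD]
      rw [div_mul_cancel₀ _ (hcardpos p hp).ne']⟩) S
    (by
      intro v hv
      unfold box
      rw [Fintype.mem_piFinset]
      intro i
      have h1 := hS1 v hv i
      rw [abs_le] at h1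
      rw [mem_Ico, hN]
      push_cast
      rw [pow_succ]
      constructor
      · linarith [h1.1]
      · linarith [h1.2])
    (fun v hv p hp => hA3 p hp v hv)
    (by
      refine le_trans ?_ hS2
      have e1 : (n : ℝ) ≤ 2 ^ n := by exact_mod_cast (Nat.lt_two_pow_self (n := n)).le
      have e2 : (N : ℝ) ≤ 2 ^ (3 * s + 2) := by exact_mod_cast hNle
      have e3 : (x : ℝ) ≤ 2 ^ s := by exact_mod_cast hxs.le
      calc (n : ℝ) * 2 ^ (n + 2) * (N : ℝ) ^ (n - 1) * (x : ℝ) ^ 2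
          ≤ 2 ^ n * 2 ^ (n + 2) * (2 ^ (3 * s + 2)) ^ (n - 1) * (2 ^ s) ^ 2 := by gcongr
        _ = 2 ^ (n + (n + 2) + (3 * s + 2) * (n - 1) + s * 2) := by
            rw [← pow_mul, ← pow_mul, ← pow_add, ← pow_add, ← pow_add]
        _ = (2 : ℝ) ^ ((n + (n + 2) + (3 * s + 2) * (n - 1) + s * 2 : ℕ) : ℝ) := by
            rw [Real.rpow_natCast]
        _ ≤ _ := by
            apply Real.rpow_le_rpow_of_exponent_le (by norm_num)
            obtain ⟨m, hm'⟩ : ∃ m, n = m + 1 := ⟨n - 1, by omega⟩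
            rw [← hn, hm', Nat.add_sub_cancel]
            rw [hm'] at hs6
            push_cast at hs6 ⊢
            have e4 : δ * (3 * (s : ℝ) + 1) ≤ 1 / 6 * (3 * (s : ℝ) + 1) := by gcongr
            nlinarith)
  have hlarge : ∑ p ∈ E2, (M p : ℝ) ≤ 2 ^ (2 * n + 4) * (x : ℝ) ^ (ε / 2) := by
    have h1 : ∑ p ∈ E2, (M p : ℝ) ≤ 2 * ∑ p ∈ E2, (DD p - 1) := by
      rw [mul_sum]
      refine sum_le_sum fun p hp => ?_
      have := hMD p hp
      have := hDD2 p hp
      linarith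
    have hScard : (0 : ℝ) < S.card := lt_of_lt_of_le (by positivity) hS2
    have h2 : ∑ p ∈ E2, (DD p - 1) ≤ 2 ^ (2 * n + 3) * (x : ℝ) ^ (ε / 2) := by
      have e2 : (N : ℝ) ≤ 2 ^ (3 * s + 2) := by exact_mod_cast hNle
      have h3 : ∑ p ∈ E2, (DD p - 1) ≤ 2 ^ (n + 1) * (N : ℝ) ^ n / S.card := by
        rw [le_div_iff₀ hScard]
        exact hsieve
      refine h3.trans ?_
      rw [div_le_iff₀ hScard]
      have h4 : (2 : ℝ) ^ (n + 1) * (N : ℝ) ^ n ≤ 2 ^ (2 * n + 2) *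
          ((2 : ℝ) ^ (3 * δ * s) * (2 : ℝ) ^ (((n : ℝ) - δ) * (((3 * s : ℕ) : ℝ) + 1))) := by
        calc (2 : ℝ) ^ (n + 1) * (N : ℝ) ^ n ≤ 2 ^ (n + 1) * (2 ^ (3 * s + 2)) ^ n := by gcongr
          _ = (2 : ℝ) ^ ((n + 1 + (3 * s + 2) * n : ℕ) : ℝ) := by
              rw [Real.rpow_natCast, ← pow_mul, ← pow_add]
          _ ≤ (2 : ℝ) ^ (((2 * n + 2 : ℕ) : ℝ) +
              (3 * δ * s + ((n : ℝ) - δ) * (((3 * s : ℕ) : ℝ) + 1))) := by
              apply Real.rpow_le_rpow_of_exponent_le (by norm_num)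
              push_cast
              nlinarith
          _ = _ := by
              rw [Real.rpow_add (by norm_num), Real.rpow_add (by norm_num), Real.rpow_natCast]
      have h5 : (2 : ℝ) ^ (3 * δ * s) ≤ 2 * (x : ℝ) ^ (ε / 2) := by
        have h6 : (2 : ℝ) ^ s ≤ 2 * x := by
          have h7 : 2 ^ (s - 1) ≤ x := size_pred_le (by omega)
          have h8 : 2 ^ s = 2 * 2 ^ (s - 1) := by
            rw [← pow_succ']
            congr 1
            omega
          have h9 : 2 ^ s ≤ 2 * x := by omega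
          exact_mod_cast h9
        calc (2 : ℝ) ^ (3 * δ * s) = ((2 : ℝ) ^ s) ^ (3 * δ) := by
              rw [← Real.rpow_natCast, ← Real.rpow_mul (by norm_num)]
              congr 1
              ring
          _ ≤ (2 * x : ℝ) ^ (3 * δ) := Real.rpow_le_rpow (by positivity) h6 (by positivity)
          _ = (2 : ℝ) ^ (3 * δ) * (x : ℝ) ^ (3 * δ) := Real.mul_rpow (by norm_num) hx0.le
          _ ≤ (2 : ℝ) ^ (1 : ℝ) * (x : ℝ) ^ (ε / 2) := by
              gcongr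
              · norm_num
              · linarith
              · linarith
          _ = 2 * (x : ℝ) ^ (ε / 2) := by rw [Real.rpow_one]
      calc (2 : ℝ) ^ (n + 1) * (N : ℝ) ^ n ≤ _ := h4
        _ ≤ 2 ^ (2 * n + 2) * ((2 * (x : ℝ) ^ (ε / 2)) * S.card) := by gcongr
        _ = 2 ^ (2 * n + 3) * (x : ℝ) ^ (ε / 2) * S.card := by rw [pow_succ]; ring
    calc ∑ p ∈ E2, (M p : ℝ) ≤ 2 * ∑ p ∈ E2, (DD p - 1) := h1
      _ ≤ 2 * (2 ^ (2 * n + 3) * (x : ℝ) ^ (ε / 2)) := by gcongr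
      _ = 2 ^ (2 * n + 4) * (x : ℝ) ^ (ε / 2) := by rw [pow_succ]; ring
  rw [← sum_filter_add_sum_filter_not E (fun p => p ^ K ≤ x)]
  calc _ ≤ (x : ℝ) ^ (ε / 2) + 2 ^ (2 * n + 4) * (x : ℝ) ^ (ε / 2) := add_le_add hsmall hlarge
    _ = (1 + 2 ^ (2 * n + 4)) * (x : ℝ) ^ (ε / 2) := by ring
    _ ≤ (x : ℝ) ^ (ε / 2) * (x : ℝ) ^ (ε / 2) := by gcongr
    _ = (x : ℝ) ^ ε := by
        rw [← Real.rpow_add hx0]
        congr 1
        ring

end Pool.Agent.Helper303_RG
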