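import Mathlib
import Pool.Agent.Helper303_RG.Entries
import Pool.Agent.Helper303_RG.Mono
import Pool.Agent.Helper303_RG.AlgPoly
import Pool.Agent.Helper303_RF.Fin

/-!
# The final list of roots
-/

set_option autoImplicit false

namespace Pool.Agent.Helper303_RG

open Finset Polynomial Filter
open Pool.Agent.H595R2.PR (md pw strip)
open Pool.Agent.Helper303_RF (rep lowc evf evf_cast evf_lt tabled exists_factors smoothPart
  smoothPart_mono cast_md cast_rep pow_pm1)

/-- polynomial, vector, denominator, degree of the residue field, exponent -/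
abbrev Ent : Type := Polynomial ℤ × List ℤ × ℤ × ℕ × ℕ

/-- the candidates from one entry -/
def cand (B : ℕ) (e : Ent) (p : ℕ) : List ℕ :=
  rlist (lowc e.1) e.2.1 e.2.2.1 p (p ^ e.2.2.2.1 - 1) (e.2.2.2.1 * p.size) (p.size ^ B)
    (p.size ^ e.2.2.2.2)

/-- the candidates for the roots of `f` -/
def rawG (lc : ℤ) (B : ℕ) (Es : List Ent) (p : ℕ) : List ℕ :=
  Es.flatMap fun e => (cand B e p).map fun s => md p (s * pw p (rep lc p) (p - 2))

/-- the list of roots -/
def rootListG (cs : List ℤ) (lc : ℤ) (B : ℕ) (Es : List Ent) (p : ℕ) : List ℕ :=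
  ((rawG lc B Es p).filter fun r => decide (evf cs p r = 0)).dedup

theorem root_iff {f : ℤ[X]} {p : ℕ} (r : ℕ) :
    (p : ℤ) ∣ f.eval (r : ℤ) ↔ f.eval₂ (Int.castRingHom (ZMod p)) (r : ZMod p) = 0 := by
  rw [← ZMod.intCast_zmod_eq_zero_iff_dvd, ← Int.cast_natCast (R := ZMod p) r, eval₂_at_intCast]
  simp

theorem evf_iff (f : ℤ[X]) {p : ℕ} (hp : p.Prime) (r : ℕ) :
    evf ((List.range (f.natDegree + 1)).map f.coeff) p r = 0 ↔ (p : ℤ) ∣ f.eval (r : ℤ) := by
  have := Fact.mk hp
  set cs := (List.range (f.natDegree + 1)).map f.coeff with hcs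
  have h1 := evf_cast cs (p := p) r
  have h2 : ∑ k ∈ range cs.length, ((cs.getD k 0 : ℤ) : ZMod p) * (r : ZMod p) ^ k =
      f.eval₂ (Int.castRingHom (ZMod p)) (r : ZMod p) := by
    rw [eval₂_eq_sum_range, hcs, List.length_map, List.length_range]
    refine sum_congr rfl fun k hk => ?_
    rw [List.getD_eq_getElem?_getD, List.getElem?_map, List.getElem?_range (mem_range.1 hk)]
    simp
  rw [root_iff, ← h2, ← h1, ZMod.natCast_eq_zero_iff]
  constructor
  · intro h
    rw [h]
    exact dvd_zero _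
  · intro h
    exact Nat.eq_zero_of_dvd_of_lt h (evf_lt cs hp.one_lt r)

/-- the union bound -/
theorem sum_le_list {α : Type} (L : List α) (S : α → Finset ℕ) (w : ℕ → ℝ) (hw : ∀ p, 0 ≤ w p)
    (b : ℝ) (hb : ∀ e ∈ L, ∑ p ∈ S e, w p ≤ b) (A : Finset ℕ) (h : ∀ p ∈ A, ∃ e ∈ L, p ∈ S e) :
    ∑ p ∈ A, w p ≤ L.length * b := by
  classical
  induction L generalizing A with
  | nil =>
    have : A = ∅ := by
      rw [eq_empty_iff_forall_notMem]
      intro p hp
      obtain ⟨e, he, -⟩ := h p hp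
      simp at he
    simp [this]
  | cons e L ih =>
    rw [← sum_filter_add_sum_filter_not A (fun p => p ∈ S e)]
    have h1 : ∑ p ∈ A.filter (fun p => p ∈ S e), w p ≤ b := by
      refine le_trans (sum_le_sum_of_subset_of_nonneg ?_ fun _ _ _ => hw _) (hb e (by simp))
      intro p hp
      exact (mem_filter.1 hp).2
    have h2 : ∑ p ∈ A.filter (fun p => ¬ p ∈ S e), w p ≤ L.length * b := by
      apply ih (fun e' he' => hb e' (by simp [he']))
      intro p hp
      obtain ⟨h3, h4⟩ := mem_filter.1 hp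
      obtain ⟨e', he', h5⟩ := h p h3
      rcases List.mem_cons.1 he' with rfl | he''
      · exact absurd h5 h4
      · exact ⟨e', he'', h5⟩
    rw [List.length_cons]
    push_cast
    linarith

end Pool.Agent.Helper303_RG

namespace Pool.Agent.NPC.H303G

open Pool.Agent.NPC Pool.Agent.NPC.H595POL Pool.Agent.NPC.H303 Pool.Agent.Helper303_RG
open Pool.Agent.Helper303_RF (rep lowc evf)
open Pool.Agent.H595R2.PR (md pw strip)

theorem poly_powk (k : ℕ) : Poly (fun p : ℕ => p ^ k) := by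
  induction k with
  | zero => exact (Poly.const 1).congr fun p => (pow_zero p).symm
  | succ k ih => exact (Poly.mul ih Poly.id).congr fun p => (pow_succ p k).symm

theorem poly_cand (B : ℕ) (e : Ent) : Poly (fun p : ℕ => cand B e p) :=
  poly_rlist (lowc e.1) e.2.1 e.2.2.1 Poly.id (Poly.sub (poly_powk _) (Poly.const 1))
    (UPoly.mul (UPoly.const _) upoly_size) (upoly_sizepow B) (upoly_sizepow _)

theorem poly_rawG (lc : ℤ) (B : ℕ) (Es : List Ent) : Poly (fun p : ℕ => rawG lc B Es p) := by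
  induction Es with
  | nil => exact Poly.const []
  | cons e Es ih =>
    have h1 : Poly (fun p : ℕ => (cand B e p).map fun s => md p (s * pw p (rep lc p) (p - 2))) := by
      refine Poly.map (F := fun p s => md p (s * pw p (rep lc p) (p - 2))) (poly_cand B e) ?_
      have hp : Poly (fun q : ℕ × ℕ => q.1) := Poly.fst Poly.id
      exact poly_md hp (Poly.mul (Poly.snd Poly.id) (poly_pw hp (poly_rep lc hp)
        (Poly.sub hp (Poly.const 2))))
    exact Poly.append h1 ih

theorem poly_rootListG (cs : List ℤ) (lc : ℤ) (B : ℕ) (Es : List Ent) :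
    Poly (fun p : ℕ => rootListG cs lc B Es p) := by
  refine poly_dedup (Poly.filter (p := fun p r => decide (evf cs p r = 0)) (poly_rawG lc B Es) ?_)
  exact Poly.decide_eq (poly_evf cs (Poly.fst Poly.id) (Poly.snd Poly.id)) (Poly.const 0)

end Pool.Agent.NPC.H303G

namespace Pool.Agent.Helper303_RG

open Finset Polynomial Filter
open Pool.Agent.H595R2.PR (md pw strip)
open Pool.Agent.Helper303_RF (rep lowc evf evf_cast evf_lt tabled exists_factors smoothPart
  smoothPart_mono cast_md cast_rep pow_pm1)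

/-- the smooth part at a prime is at least one and increases with the exponent -/
theorem smoothPart_size_le (B k p : ℕ) (hp : p.Prime) :
    (smoothPart (p.size ^ B) (p ^ k - 1) : ℝ) ≤ (smoothPart (p.size ^ (B + 1)) (p ^ k - 1) : ℝ) := by
  have e2 : 1 ≤ p.size := Nat.size_pos.2 hp.pos
  exact_mod_cast smoothPart_mono (Nat.pow_le_pow_right e2 (Nat.le_succ B))

open Classical in
theorem single (Gs : List ℤ[X]) (hGs : ∀ g ∈ Gs, Irreducible g ∧ g.Monic ∧ 0 < g.natDegree)
    (f : ℤ[X]) (hf : 0 < f.natDegree) (B : ℕ) (ε : ℝ) (hε : 0 < ε) :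
    ∃ F : ℕ → List ℕ, NPC.Poly F ∧
      (∀ p : ℕ, p.Prime → (F p).Nodup ∧ ∀ r ∈ F p, r < p ∧ (p : ℤ) ∣ f.eval (r : ℤ)) ∧
      ∀ g ∈ Gs, ∀ x : ℕ, ∑ p ∈ (range (x + 1)).filter (fun p => p.Prime ∧
        (∃ r : ℕ, r < p ∧ (p : ℤ) ∣ f.eval (r : ℤ) ∧ r ∉ F p) ∧
        Irreducible (g.map (Int.castRingHom (ZMod p)))),
        (smoothPart (p.size ^ B) (p ^ g.natDegree - 1) : ℝ) ≤ (x : ℝ) ^ ε := by
  obtain ⟨Hs, hHs, hroot⟩ := exists_factors hf
  have hε2 : 0 < ε / 2 := by positivity
  -- the entries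
  have hent : ∀ fg : ℤ[X] × ℤ[X], fg.1 ∈ Hs → fg.2 ∈ Gs → ∃ (P : ℕ) (Es : List Ent),
      (∀ e ∈ Es, e.2.2.2.1 = fg.2.natDegree ∧ ∀ x : ℕ,
        ∑ p ∈ (range (x + 1)).filter (fun p => p.Prime ∧ P < p ∧
          BadK e.1 e.2.1 e.2.2.1 e.2.2.2.1 (e.2.2.2.1 * p.size) (p.size ^ (B + 1))
            (p.size ^ e.2.2.2.2) p),
          (smoothPart (p.size ^ (B + 1)) (p ^ e.2.2.2.1 - 1) : ℝ) ≤ (x : ℝ) ^ (ε / 2)) ∧
      ∀ p : ℕ, p.Prime → P < p → Irreducible (fg.2.map (Int.castRingHom (ZMod p))) →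
        ∀ r < p, fg.1.eval₂ (Int.castRingHom (ZMod p)) (r : ZMod p) = 0 → ∃ e ∈ Es,
          r ∉ cand (B + 1) e p →
          BadK e.1 e.2.1 e.2.2.1 e.2.2.2.1 (e.2.2.2.1 * p.size) (p.size ^ (B + 1))
            (p.size ^ e.2.2.2.2) p := by
    rintro ⟨f0, g⟩ hf0 hg
    obtain ⟨D, Es, hD, hEs, hall⟩ := exists_entries (hHs f0 hf0).1 (hHs f0 hf0).2.1
      (hHs f0 hf0).2.2 (hGs g hg).1 (hGs g hg).2.1 (hGs g hg).2.2
    have hm : ∀ e ∈ Es, ∃ C P1 : ℕ, ∀ x : ℕ,
        ∑ p ∈ (range (x + 1)).filter (fun p => p.Prime ∧ P1 < p ∧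
          BadK e.1 e.2 D g.natDegree (g.natDegree * p.size) (p.size ^ (B + 1)) (p.size ^ C) p),
          (smoothPart (p.size ^ (B + 1)) (p ^ g.natDegree - 1) : ℝ) ≤ (x : ℝ) ^ (ε / 2) :=
      fun e he => mono (hEs e he).1 (hEs e he).2.1 (hEs e he).2.2 e.2 hD (hGs g hg).2.2
        (Nat.succ_pos B) hε2
    choose! C P1 hCP using hm
    refine ⟨D.natAbs + (Es.map P1).sum, Es.map fun e => (e.1, e.2, D, g.natDegree, C e), ?_, ?_⟩
    · intro e' he'
      obtain ⟨e, he, rfl⟩ := List.mem_map.1 he'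
      refine ⟨rfl, fun x => le_trans ?_ (hCP e he x)⟩
      refine sum_le_sum_of_subset_of_nonneg ?_ fun _ _ _ => by positivity
      intro p hp
      obtain ⟨h1, h2, h3, h4⟩ := mem_filter.1 hp
      refine mem_filter.2 ⟨h1, h2, ?_, h4⟩
      have := List.single_le_sum (fun _ _ => Nat.zero_le _) (P1 e) (List.mem_map.2 ⟨e, he, rfl⟩)
      omega
    · intro p hp hpP hirr r hr hfr
      have hpD : ¬ (p : ℤ) ∣ D := by
        intro hdvd
        have h1 := Nat.le_of_dvd (Int.natAbs_pos.2 hD) (Int.natCast_dvd.1 hdvd)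
        omega
      obtain ⟨e, he, h⟩ := hall p hp hpD hirr r hr hfr
      exact ⟨_, List.mem_map.2 ⟨e, he, rfl⟩, h _ _ _⟩
  choose! Pt Et hEt1 hEt2 using hent
  set Es : List Ent := (Hs.flatMap fun f0 => Gs.map fun g => (f0, g)).flatMap Et with hEs
  set lc := f.leadingCoeff with hlc
  have hlc0 : lc ≠ 0 := by
    rw [hlc, Ne, leadingCoeff_eq_zero]
    rintro rfl
    simp at hf
  -- the threshold
  have ht : ∀ᶠ x : ℕ in atTop, (Es.length : ℝ) ≤ (x : ℝ) ^ (ε / 2) :=
    ((tendsto_rpow_atTop hε2).comp tendsto_natCast_atTop_atTop).eventually_ge_atTop _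
  obtain ⟨X0, hX0⟩ := eventually_atTop.1 ht
  set P := X0 + lc.natAbs + ((Hs.flatMap fun f0 => Gs.map fun g => (f0, g)).map Pt).sum with hP
  have hPt : ∀ f0 ∈ Hs, ∀ g ∈ Gs, Pt (f0, g) ≤ P := by
    intro f0 hf0 g hg
    have hmem : (f0, g) ∈ Hs.flatMap fun f0 => Gs.map fun g => (f0, g) :=
      List.mem_flatMap.2 ⟨f0, hf0, List.mem_map.2 ⟨g, hg, rfl⟩⟩
    have := List.single_le_sum (fun _ _ => Nat.zero_le _) (Pt (f0, g)) (List.mem_map.2 ⟨(f0, g),
      hmem, rfl⟩)
    omega
  set cs := (List.range (f.natDegree + 1)).map f.coeff with hcs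
  set G : ℕ → List ℕ := rootListG cs lc (B + 1) Es with hG
  set F : ℕ → List ℕ := tabled P (fun p => (List.range p).filter
    fun r : ℕ => decide ((p : ℤ) ∣ f.eval (r : ℤ))) G with hF
  have hFP : ∀ p, p ≤ P → F p = (List.range p).filter
      fun r : ℕ => decide ((p : ℤ) ∣ f.eval (r : ℤ)) := by
    intro p hp
    rw [hF]
    unfold tabled
    rw [if_pos hp]
  have hFG : ∀ p, ¬ p ≤ P → F p = G p := by
    intro p hp
    rw [hF]
    unfold tabled
    rw [if_neg hp]
  have hmemG : ∀ p : ℕ, p.Prime → ∀ r, r ∈ G p ↔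
      r ∈ rawG lc (B + 1) Es p ∧ (p : ℤ) ∣ f.eval (r : ℤ) := by
    intro p hp r
    rw [hG]
    unfold rootListG
    rw [List.mem_dedup, List.mem_filter, decide_eq_true_iff, evf_iff f hp]
  have hraw : ∀ p : ℕ, p.Prime → ∀ r ∈ rawG lc (B + 1) Es p, r < p := by
    intro p hp r hr
    unfold rawG at hr
    obtain ⟨h, -, hr⟩ := List.mem_flatMap.1 hr
    obtain ⟨s, -, rfl⟩ := List.mem_map.1 hr
    unfold md
    rw [max_eq_left hp.one_lt.le]
    exact Nat.mod_lt _ hp.pos
  refine ⟨F, NPC.H303.poly_tabled P _ (NPC.H303G.poly_rootListG _ _ _ _), ?_, ?_⟩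
  · intro p hp
    by_cases hpP : p ≤ P
    · rw [hFP p hpP]
      refine ⟨List.nodup_range.filter _, fun r hr => ?_⟩
      obtain ⟨h1, h2⟩ := List.mem_filter.1 hr
      exact ⟨List.mem_range.1 h1, by simpa using h2⟩
    · rw [hFG p hpP]
      refine ⟨by rw [hG]; unfold rootListG; exact List.nodup_dedup _, fun r hr => ?_⟩
      obtain ⟨h1, h2⟩ := (hmemG p hp r).1 hr
      exact ⟨hraw p hp r h1, h2⟩
  · intro g hg x
    rcases lt_or_ge x X0 with hx | hx
    · rw [filter_false_of_mem, sum_empty]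
      · positivity
      · rintro p hp ⟨_, ⟨r, hr, h1, h2⟩, _⟩
        have := mem_range.1 hp
        apply h2
        rw [hFP p (by omega)]
        exact List.mem_filter.2 ⟨List.mem_range.2 hr, by simpa using h1⟩
    · have hxe : (Es.length : ℝ) * (x : ℝ) ^ (ε / 2) ≤ (x : ℝ) ^ ε := by
        calc (Es.length : ℝ) * (x : ℝ) ^ (ε / 2) ≤ (x : ℝ) ^ (ε / 2) * (x : ℝ) ^ (ε / 2) := by
              gcongr
              exact hX0 x hx
          _ = (x : ℝ) ^ ε := by
            rcases Nat.eq_zero_or_pos x with rfl | hx1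
            · rw [Nat.cast_zero, Real.zero_rpow hε2.ne', Real.zero_rpow hε.ne', mul_zero]
            · rw [← Real.rpow_add (by exact_mod_cast hx1)]
              congr 1
              ring
      refine le_trans ?_ hxe
      refine le_trans ?_ (mul_le_mul_of_nonneg_right (b := ((Es.filter fun e =>
        decide (e.2.2.2.1 = g.natDegree ∧ e ∈ Hs.flatMap fun f0 => Et (f0, g))).length : ℝ))
        (by exact_mod_cast List.length_filter_le _ _) (by positivity))
      apply sum_le_list _ (fun e : Ent => (range (x + 1)).filter (fun p => p.Prime ∧ P < p ∧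
          BadK e.1 e.2.1 e.2.2.1 e.2.2.2.1 (e.2.2.2.1 * p.size) (p.size ^ (B + 1))
            (p.size ^ e.2.2.2.2) p)) _ (fun _ => Nat.cast_nonneg _)
      · intro e he
        obtain ⟨h1, h2⟩ := List.mem_filter.1 he
        rw [decide_eq_true_iff] at h2
        obtain ⟨h2, h3⟩ := h2
        obtain ⟨f0, hf0, h4⟩ := List.mem_flatMap.1 h3
        have h5 := (hEt1 (f0, g) hf0 hg e h4).2 x
        refine le_trans ?_ h5
        calc _ ≤ ∑ p ∈ (range (x + 1)).filter (fun p => p.Prime ∧ P < p ∧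
              BadK e.1 e.2.1 e.2.2.1 e.2.2.2.1 (e.2.2.2.1 * p.size) (p.size ^ (B + 1))
              (p.size ^ e.2.2.2.2) p),
              (smoothPart (p.size ^ (B + 1)) (p ^ e.2.2.2.1 - 1) : ℝ) := by
              refine sum_le_sum fun p hp => ?_
              rw [h2]
              exact smoothPart_size_le B _ p (mem_filter.1 hp).2.1
          _ ≤ _ := by
              refine sum_le_sum_of_subset_of_nonneg ?_ fun _ _ _ => by positivity
              intro p hp
              obtain ⟨h6, h7, h8, h9⟩ := mem_filter.1 hp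
              have := hPt f0 hf0 g hg
              exact mem_filter.2 ⟨h6, h7, by omega, h9⟩
      · intro p hp
        obtain ⟨h1, h2, ⟨r, h3, h4, h5⟩, hirr⟩ := mem_filter.1 hp
        have := Fact.mk h2
        have hpP : ¬ p ≤ P := by
          intro hpP
          apply h5
          rw [hFP p hpP]
          exact List.mem_filter.2 ⟨List.mem_range.2 h3, by simpa using h4⟩
        have hlcp : (lc : ZMod p) ≠ 0 := by
          intro h0
          rw [ZMod.intCast_zmod_eq_zero_iff_dvd] at h0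
          have e1 := Nat.le_of_dvd (Int.natAbs_pos.2 hlc0) (Int.natCast_dvd.1 h0)
          omega
        obtain ⟨f0, hf0, h6⟩ := hroot p h2 (r : ZMod p) ((root_iff r).1 h4)
        set r' : ℕ := (lc * (r : ZMod p) : ZMod p).val with hr'
        have hr'p : r' < p := ZMod.val_lt _
        have hPtp := hPt f0 hf0 g hg
        obtain ⟨e, he, h7⟩ := hEt2 (f0, g) hf0 hg p h2 (by omega) hirr r' hr'p (by
          rw [hr', ZMod.natCast_zmod_val]
          exact h6)
        have heEs : e ∈ Es := by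
          rw [hEs]
          exact List.mem_flatMap.2 ⟨(f0, g), List.mem_flatMap.2 ⟨f0, hf0, List.mem_map.2
            ⟨g, hg, rfl⟩⟩, he⟩
        refine ⟨e, List.mem_filter.2 ⟨heEs, ?_⟩, mem_filter.2 ⟨h1, h2, by omega, h7 ?_⟩⟩
        · rw [decide_eq_true_iff]
          exact ⟨(hEt1 (f0, g) hf0 hg e he).1, List.mem_flatMap.2 ⟨f0, hf0, he⟩⟩
        · intro h8
          apply h5
          rw [hFG p hpP, hmemG p h2]
          refine ⟨?_, h4⟩
          unfold rawG
          refine List.mem_flatMap.2 ⟨e, heEs, List.mem_map.2 ⟨_, h8, ?_⟩⟩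
          have h8 : ((md p (r' * pw p (rep lc p) (p - 2)) : ℕ) : ZMod p) = (r : ZMod p) := by
            rw [cast_md (p := p), Nat.cast_mul, H595R2.PR.pw_eq, cast_md (p := p), Nat.cast_pow,
              cast_rep (p := p), hr', ZMod.natCast_zmod_val, mul_right_comm, ← pow_succ',
              show p - 2 + 1 = p - 1 by have := h2.two_le; omega, pow_pm1 _ hlcp, one_mul]
          have h9 := (ZMod.natCast_eq_natCast_iff' _ _ _).1 h8
          rw [Nat.mod_eq_of_lt h3] at h9
          refine Eq.trans (Nat.mod_eq_of_lt ?_).symm h9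
          unfold md
          rw [max_eq_left h2.one_lt.le]
          exact Nat.mod_lt _ h2.pos

end Pool.Agent.Helper303_RG
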